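import Pool.Agent.UTF.Red
import Pool.Agent.Helper37.Fc.StabF

/-!
# Project UTF (MP_6cbef8_nt), module Fam: families of normal subgroups

If `ρ` does not act by scalars on each of two normal subgroups, then neither on their intersection
(commutators); by compactness the same holds for any family of closed normal subgroups of a compact
group.  The determination lemma relative to a normal subgroup.
-/

set_option autoImplicit false

namespace Pool.Agent.UTF

open Matrix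

section comm

variable {l : ℕ} [Fact l.Prime] {k : Type*} [Field k] [Finite k] [CharP k l] {Γ : Type*} [Group Γ]

/-- an element whose commutators with all conjugates of a unipotent are scalar is scalar -/
theorem scalar_of_commutators (hl2 : (2 : k) ≠ 0) (ρ : Γ →* GL (Fin 2) k)
    (hirr : ∀ v : Fin 2 → k, v ≠ 0 → ∃ y : Γ, ∀ s : k,
      (ρ y : Matrix (Fin 2) (Fin 2) k).mulVec v ≠ s • v) {y₁ : Γ} (hord : orderOf (ρ y₁) = l)
    (y : Γ) (h : ∀ g : Γ, ρ (y * (g * y₁ * g⁻¹) * y⁻¹ * (g * y₁ * g⁻¹)⁻¹) ∈ scal k) :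
    ρ y ∈ scal k := by
  have hl : l.Prime := Fact.out
  obtain ⟨Y, hYd⟩ : ∃ Y, Y = (ρ y₁ : Matrix (Fin 2) (Fin 2) k) - 1 := ⟨_, rfl⟩
  have hρY : (ρ y₁ : Matrix (Fin 2) (Fin 2) k) = 1 + Y := by rw [hYd]; abel
  have hY : Y * Y = 0 := by
    rw [hYd]
    refine sq_zero_of_pow (l := l) (j := 1) _ ?_
    rw [pow_one, ← Units.val_pow_eq_pow_val, ← hord, pow_orderOf_eq_one, Units.val_one]
  have hY0 : Y ≠ 0 := by
    intro h0
    have h1 : ρ y₁ = 1 := Units.ext (by rw [hρY, h0, add_zero, Units.val_one])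
    rw [h1, orderOf_one] at hord
    exact hl.one_lt.ne hord
  refine scalar_of_comm ρ hirr hY hY0 _ fun g => ?_
  obtain ⟨x, hx⟩ : ∃ x, x = g * y₁ * g⁻¹ := ⟨_, rfl⟩
  obtain ⟨s, hs⟩ := h g
  rw [← hx] at hs
  have h1 : (ρ (y * x * y⁻¹) : Matrix (Fin 2) (Fin 2) k) = s • (ρ x : Matrix (Fin 2) (Fin 2) k) := by
    have h2 : ρ (y * x * y⁻¹) = ρ (y * x * y⁻¹ * x⁻¹) * ρ x := by
      rw [← map_mul, inv_mul_cancel_right]
    rw [h2, Units.val_mul, hs, Matrix.smul_mul, Matrix.one_mul]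
  have htx : (ρ x : Matrix (Fin 2) (Fin 2) k).trace = 2 := by
    rw [hx, map_mul, map_mul, map_inv, Units.val_mul, Units.val_mul, Matrix.trace_mul_comm,
      ← Matrix.mul_assoc, ← Units.val_mul, inv_mul_cancel, Units.val_one, Matrix.one_mul, hρY,
      trace_one_add hY]
  have hty : (ρ (y * x * y⁻¹) : Matrix (Fin 2) (Fin 2) k).trace = 2 := by
    rw [map_mul, map_mul, map_inv, Units.val_mul, Units.val_mul, Matrix.trace_mul_comm,
      ← Matrix.mul_assoc, ← Units.val_mul, inv_mul_cancel, Units.val_one, Matrix.one_mul, htx]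
  have hs1 : s = 1 := by
    have h2 := congrArg Matrix.trace h1
    rw [hty, Matrix.trace_smul, htx, smul_eq_mul] at h2
    exact (mul_right_cancel₀ hl2 (by rw [one_mul]; exact h2)).symm
  rw [hs1, one_smul] at h1
  have h2 : ρ (y * x * y⁻¹) = ρ x := Units.ext h1
  have h3 : ρ y * ρ x = ρ x * ρ y := by
    rw [map_mul, map_mul, map_inv, mul_inv_eq_iff_eq_mul] at h2
    exact h2
  have h4 : (ρ y : Matrix (Fin 2) (Fin 2) k) * ρ x = ρ x * ρ y := by
    rw [← Units.val_mul, h3, Units.val_mul]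
  have h6 : (ρ x : Matrix (Fin 2) (Fin 2) k) = 1 + (ρ g : Matrix (Fin 2) (Fin 2) k) * Y *
      (((ρ g)⁻¹ : GL (Fin 2) k) : Matrix (Fin 2) (Fin 2) k) := by
    rw [hx, map_mul, map_mul, map_inv, Units.val_mul, Units.val_mul, hρY, Matrix.mul_add,
      Matrix.add_mul, Matrix.mul_one, ← Units.val_mul, mul_inv_cancel, Units.val_one]
  rw [h6, Matrix.mul_add, Matrix.add_mul, Matrix.mul_one, Matrix.one_mul] at h4
  exact add_left_cancel h4

/-- two normal subgroups -/
theorem inf_not_scalar (h5 : 5 ≤ l) (ρ : Γ →* GL (Fin 2) k) (hρ : ContainsSL (l := l) ρ)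
    (N N' : Subgroup Γ) [N.Normal] [N'.Normal] (hN : ∃ y ∈ N, ρ y ∉ scal k)
    (hN' : ∃ y ∈ N', ρ y ∉ scal k) : ∃ y ∈ N ⊓ N', ρ y ∉ scal k := by
  have hl : l.Prime := Fact.out
  have hl2 : (2 : k) ≠ 0 := two_ne (l := l) h5
  obtain ⟨hirr, -⟩ := irr_of_containsSL (l := l) ρ hρ
  by_contra hcon
  push Not at hcon
  obtain ⟨y, hy, hys⟩ := hN
  obtain ⟨y', hy', hys'⟩ := hN'
  rcases scalar_or_big h5 ρ hρ N' with h1 | ⟨-, y₀, hy₀, hd⟩
  · exact hys' (h1 y' hy')
  have hs : orderOf (ρ y₀ ^ (orderOf (ρ y₀) / l)) = l :=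
    orderOf_pow_orderOf_div (orderOf_pos _).ne' hd
  rw [← map_pow] at hs
  refine hys (scalar_of_commutators hl2 ρ hirr hs y fun g => hcon _ ⟨?_, ?_⟩)
  · obtain ⟨x, hx⟩ : ∃ x, x = g * y₀ ^ (orderOf (ρ y₀) / l) * g⁻¹ := ⟨_, rfl⟩
    rw [← hx]
    have h1 : y * x * y⁻¹ * x⁻¹ = y * (x * y⁻¹ * x⁻¹) := by group
    rw [h1]
    exact N.mul_mem hy (Subgroup.Normal.conj_mem inferInstance _ (N.inv_mem hy) x)
  · have hx : g * y₀ ^ (orderOf (ρ y₀) / l) * g⁻¹ ∈ N' :=
      Subgroup.Normal.conj_mem inferInstance _ (N'.pow_mem hy₀ _) g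
    exact N'.mul_mem (Subgroup.Normal.conj_mem inferInstance _ hx y) (N'.inv_mem hx)

/-- any family of closed normal subgroups of a compact group -/
theorem iInf_not_scalar (h5 : 5 ≤ l) [TopologicalSpace Γ] [IsTopologicalGroup Γ] [CompactSpace Γ]
    (ρ : Γ →* GL (Fin 2) k) (hρo : IsOpen (ρ.ker : Set Γ)) (hρ : ContainsSL (l := l) ρ)
    {I : Type*} (N : I → Subgroup Γ) (hNn : ∀ i, (N i).Normal) (hNc : ∀ i, IsClosed (N i : Set Γ))
    (hN : ∀ i, ∃ y ∈ N i, ρ y ∉ scal k) : ∃ y ∈ ⨅ i, N i, ρ y ∉ scal k := by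
  classical
  -- finite families
  have hfin : ∀ J : Finset I, ∃ y ∈ ⨅ i ∈ J, N i, ρ y ∉ scal k := by
    intro J
    induction J using Finset.induction_on with
    | empty =>
      obtain ⟨hirr, -⟩ := irr_of_containsSL (l := l) ρ hρ
      obtain ⟨y, hy⟩ := hirr (Pi.single 0 1) (by
        intro h0
        have := congrFun h0 0
        simp at this)
      refine ⟨y, by simp, ?_⟩
      rintro ⟨s, hs⟩
      refine hy s ?_
      rw [hs, Matrix.smul_mulVec, Matrix.one_mulVec]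
    | insert i J hi ih =>
      rw [Finset.iInf_insert]
      have hn : (⨅ i ∈ J, N i).Normal := by
        refine Subgroup.normal_iInf_normal fun i => ?_
        exact Subgroup.normal_iInf_normal fun _ => hNn i
      have := hNn i
      exact inf_not_scalar h5 ρ hρ _ _ (hN i) ih
  -- compactness
  have hC : IsClosed {y : Γ | ρ y ∉ scal k} := by
    rw [← isOpen_compl_iff]
    have h1 : {y : Γ | ρ y ∉ scal k}ᶜ = (((scal k).comap ρ : Subgroup Γ) : Set Γ) := by
      ext y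
      simp
    rw [h1]
    exact Subgroup.isOpen_mono (fun y hy => by
      show ρ y ∈ scal k
      rw [MonoidHom.mem_ker.mp hy]
      exact (scal k).one_mem) hρo
  obtain ⟨y, hy1, hy2⟩ := hC.isCompact.inter_iInter_nonempty (fun i => (N i : Set Γ)) hNc
    (fun J => by
      obtain ⟨y, hy, hys⟩ := hfin J
      refine ⟨y, hys, ?_⟩
      simp only [Set.mem_iInter]
      intro i hi
      simp only [Subgroup.mem_iInf] at hy
      exact hy i hi)
  refine ⟨y, ?_, hy1⟩
  rw [Subgroup.mem_iInf]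
  intro i
  exact Set.mem_iInter.mp hy2 i

end comm

open Pool.Agent.Helper37.Fc in
/-- `det_uniform` relative to a normal subgroup -/
theorem det_rel {E : Type*} [NontriviallyNormedField E] [IsUltrametricDist E]
    {G : Type*} [Group G] [TopologicalSpace G] [IsTopologicalGroup G] [CompactSpace G]
    (A : Finset E) (hA : ∀ x : E, ‖x‖ ≤ 1 → ∃ a ∈ A, ‖x - a‖ < 1) (m : ℕ) (N : Subgroup G)
    [N.Normal] (D : Set G)
    (hD : ∀ U : Subgroup G, U.Normal → IsOpen (U : Set G) → N ≤ U →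
      U.index ≤ (A.card ^ m).factorial → ∀ g : G, ∃ r ∈ D, ∃ h : G, g⁻¹ * (h * r * h⁻¹) ∈ U)
    (f : C(G, E)) (S : Submodule E C(G, E)) [FiniteDimensional E S]
    (hm : Module.finrank E S ≤ m) (hS : ∀ h, rt h f ∈ S) (hfN : ∀ g, ∀ ν ∈ N, f (g * ν) = f g)
    (h0 : ∀ r ∈ D, ∀ h : G, f (h * r * h⁻¹) = 0) (g : G) : f g = 0 := by
  classical
  have hAcard : 1 ≤ A.card := by
    obtain ⟨a, ha, _⟩ := hA 0 (by simp)
    exact Finset.card_pos.mpr ⟨a, ha⟩
  by_contra hfx
  obtain ⟨u₀, -, hu₀⟩ := isCompact_univ.exists_isMaxOn (Set.univ_nonempty (α := G))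
    (f.continuous.norm.continuousOn)
  have hmax : ∀ u, ‖f u‖ ≤ ‖f u₀‖ := fun u => hu₀ (Set.mem_univ u)
  have hne : f u₀ ≠ 0 := by
    intro h1
    apply hfx
    have h2 := hmax g
    rw [h1, norm_zero] at h2
    exact norm_le_zero_iff.mp h2
  obtain ⟨f₂, hf₂⟩ : ∃ f₂ : C(G, E), f₂ = (f u₀)⁻¹ • f := ⟨_, rfl⟩
  have hf₂v : ∀ u, f₂ u = (f u₀)⁻¹ * f u := fun u => by rw [hf₂]; rfl
  have hf₂n : ‖f₂‖ ≤ 1 := by
    rw [ContinuousMap.norm_le _ zero_le_one]
    intro u
    rw [hf₂v, norm_mul, norm_inv]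
    rw [inv_mul_le_iff₀ (norm_pos_iff.mpr hne), mul_one]
    exact hmax u
  obtain ⟨H, hHo, hHi, hH⟩ := exists_stab A hA f₂ hf₂n S (fun h => by
    have e : rt h f₂ = (f u₀)⁻¹ • rt h f := by rw [hf₂]; rfl
    rw [e]
    exact S.smul_mem _ (hS h))
  have hHi' : H.index ≤ A.card ^ m := hHi.trans (Nat.pow_le_pow_right hAcard hm)
  have hHf : Finite (G ⧸ H) := Subgroup.quotient_finite_of_isOpen H hHo
  have hHfi : H.FiniteIndex := Subgroup.finiteIndex_of_finite_quotient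
  -- enlarge `H`
  obtain ⟨H', hH'⟩ : ∃ H', H' = H ⊔ N := ⟨_, rfl⟩
  have hle : H ≤ H' := by rw [hH']; exact le_sup_left
  have hH'o : IsOpen (H' : Set G) := Subgroup.isOpen_mono hle hHo
  have hH'i : H'.index ≤ A.card ^ m := by
    refine (Nat.le_of_dvd ?_ (Subgroup.index_dvd_of_le hle)).trans hHi'
    exact Nat.pos_of_ne_zero hHfi.index_ne_zero
  have hH'f : Finite (G ⧸ H') := Subgroup.quotient_finite_of_isOpen H' hH'o
  have hH'fi : H'.FiniteIndex := Subgroup.finiteIndex_of_finite_quotient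
  have hst : ∀ h ∈ H', ∀ g, ‖f₂ (g * h) - f₂ g‖ < 1 := by
    intro h hh g
    rw [hH'] at hh
    obtain ⟨a, ha, b, hb, hab⟩ := Subgroup.mem_sup_of_normal_right.1 hh
    have h1 : f₂ (g * h) = f₂ (g * a) := by
      rw [hf₂v, hf₂v, ← hab, ← mul_assoc, hfN _ b hb]
    rw [h1]
    exact hH a ha g
  -- the normal core
  have hco : IsOpen (H'.normalCore : Set G) :=
    Subgroup.isOpen_of_isClosed_of_finiteIndex _
      (H'.normalCore_isClosed (Subgroup.isClosed_of_isOpen H' hH'o))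
  have hNc : N ≤ H'.normalCore := Subgroup.normal_le_normalCore.mpr (by
    rw [hH']; exact le_sup_right)
  have hci : H'.normalCore.index ≤ (A.card ^ m).factorial := by
    have hft : Fintype (G ⧸ H') := Fintype.ofFinite _
    rw [Subgroup.normalCore_eq_ker, Subgroup.index_ker]
    calc Nat.card (MulAction.toPermHom G (G ⧸ H')).range
        ≤ Nat.card (Equiv.Perm (G ⧸ H')) := Nat.card_le_card_of_injective _ Subtype.val_injective
      _ = (Nat.card (G ⧸ H')).factorial := Nat.card_perm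
      _ ≤ (A.card ^ m).factorial := Nat.factorial_le hH'i
  obtain ⟨r, hr, h, hrh⟩ := hD H'.normalCore inferInstance hco hNc hci u₀
  have h1 := hst _ (H'.normalCore_le hrh) u₀
  rw [mul_inv_cancel_left, hf₂v, hf₂v, h0 r hr h, mul_zero, zero_sub, norm_neg,
    inv_mul_cancel₀ hne, norm_one] at h1
  exact lt_irrefl _ h1

end Pool.Agent.UTF
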