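import Mathlib

/-!
# Project UTF (MP_6cbef8_nt), module Alg: two by two matrices

Only Mathlib.
-/

set_option autoImplicit false

namespace Pool.Agent.UTF

open Matrix

variable {k : Type*} [Field k]

/-- Cayley-Hamilton -/
theorem ch_two (A : Matrix (Fin 2) (Fin 2) k) : A * A = A.trace • A - A.det • 1 := by
  ext i j
  fin_cases i <;> fin_cases j <;>
    simp [Matrix.mul_apply, Fin.sum_univ_two, Matrix.trace_fin_two, Matrix.det_fin_two] <;> ring

/-- nilpotent: trace and determinant vanish -/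
theorem sq_zero_of_nil (A : Matrix (Fin 2) (Fin 2) k) (h : IsNilpotent A) : A * A = 0 := by
  have h1 : A.trace = 0 := (Matrix.isNilpotent_trace_of_isNilpotent h).eq_zero
  have h2 : A.det = 0 := by
    obtain ⟨n, hn⟩ := h
    have h3 : A.det ^ n = 0 := by
      rw [← Matrix.det_pow, hn, Matrix.det_zero]
    exact eq_zero_of_pow_eq_zero h3
  rw [ch_two, h1, h2, zero_smul, zero_smul, sub_zero]

theorem trace_zero_of_sq {A : Matrix (Fin 2) (Fin 2) k} (h : A * A = 0) : A.trace = 0 :=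
  (Matrix.isNilpotent_trace_of_isNilpotent ⟨2, by rw [pow_two, h]⟩).eq_zero

theorem sq_zero_of_pow {l : ℕ} [Fact l.Prime] [CharP k l] (s : Matrix (Fin 2) (Fin 2) k) {j : ℕ}
    (hs : s ^ (l ^ j) = 1) : (s - 1) * (s - 1) = 0 := by
  refine sq_zero_of_nil _ ⟨l ^ j, ?_⟩
  have : CharP (Matrix (Fin 2) (Fin 2) k) l := inferInstance
  rw [sub_pow_char_pow_of_commute l j (Commute.one_right s), hs, one_pow, sub_self]

/-- entries of a nilpotent matrix -/
theorem entries {Y : Matrix (Fin 2) (Fin 2) k} (hY : Y * Y = 0) :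
    Y 1 1 = - Y 0 0 ∧ Y 0 0 * Y 0 0 + Y 0 1 * Y 1 0 = 0 := by
  have h1 := trace_zero_of_sq hY
  rw [Matrix.trace_fin_two] at h1
  have h2 := congrFun (congrFun hY 0) 0
  rw [Matrix.mul_apply, Fin.sum_univ_two] at h2
  exact ⟨by linear_combination h1, h2⟩

/-- a matrix commuting with a nilpotent one has discriminant zero -/
theorem disc_of_comm {g Y : Matrix (Fin 2) (Fin 2) k} (hY : Y * Y = 0) (hY0 : Y ≠ 0)
    (hc : g * Y = Y * g) : g.trace ^ 2 = 4 * g.det := by
  obtain ⟨h11, hq⟩ := entries hY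
  have e00 := congrFun (congrFun hc 0) 0
  have e01 := congrFun (congrFun hc 0) 1
  have e10 := congrFun (congrFun hc 1) 0
  rw [Matrix.mul_apply, Fin.sum_univ_two, Matrix.mul_apply, Fin.sum_univ_two] at e00 e01 e10
  rw [h11] at e01 e10
  rw [Matrix.trace_fin_two, Matrix.det_fin_two]
  by_cases hb : Y 0 1 = 0
  · by_cases hc' : Y 1 0 = 0
    · exfalso
      have h3 : Y 0 0 = 0 := by
        rw [hb, zero_mul, add_zero] at hq
        exact mul_self_eq_zero.mp hq
      apply hY0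
      ext i j
      fin_cases i <;> fin_cases j <;> simp [h3, hb, hc', h11]
    · have h4 : Y 1 0 ^ 2 * ((g 0 0 + g 1 1) ^ 2 - 4 * (g 0 0 * g 1 1 - g 0 1 * g 1 0)) = 0 := by
        linear_combination (- Y 1 0 * (g 0 0 - g 1 1) - 2 * Y 0 0 * g 1 0) * e10
          + (4 * Y 1 0 * g 1 0) * e00 + (4 * g 1 0 ^ 2) * hq
      have h5 := (mul_eq_zero.mp h4).resolve_left (pow_ne_zero 2 hc')
      linear_combination h5
  · have h4 : Y 0 1 ^ 2 * ((g 0 0 + g 1 1) ^ 2 - 4 * (g 0 0 * g 1 1 - g 0 1 * g 1 0)) = 0 := by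
      linear_combination (Y 0 1 * (g 0 0 - g 1 1) + 2 * Y 0 0 * g 0 1) * e01
        - (4 * Y 0 1 * g 0 1) * e00 + (4 * g 0 1 ^ 2) * hq
    have h5 := (mul_eq_zero.mp h4).resolve_left (pow_ne_zero 2 hb)
    linear_combination h5

/-- proportional nilpotent matrices -/
theorem prop_of_trace {Y Z : Matrix (Fin 2) (Fin 2) k} (hY : Y * Y = 0) (hZ : Z * Z = 0)
    (hY0 : Y ≠ 0) (ht : (Y * Z).trace = 0) : ∃ c : k, Z = c • Y := by
  obtain ⟨hy, hyq⟩ := entries hY
  obtain ⟨hz, hzq⟩ := entries hZ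
  rw [Matrix.trace_fin_two, Matrix.mul_apply, Matrix.mul_apply, Fin.sum_univ_two,
    Fin.sum_univ_two, hy, hz] at ht
  by_cases hb : Y 0 1 = 0
  · by_cases hc' : Y 1 0 = 0
    · exfalso
      have h3 : Y 0 0 = 0 := by
        rw [hb, zero_mul, add_zero] at hyq
        exact mul_self_eq_zero.mp hyq
      apply hY0
      ext i j
      fin_cases i <;> fin_cases j <;> simp [h3, hb, hc', hy]
    · have h4 : (Y 1 0 * Z 0 0 - Y 0 0 * Z 1 0) ^ 2 = 0 := by
        linear_combination (-1) * (Y 1 0 * Z 1 0) * ht + (Z 1 0 ^ 2) * hyq + (Y 1 0 ^ 2) * hzq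
      have h5 : Y 1 0 * Z 0 0 = Y 0 0 * Z 1 0 := by
        have := pow_eq_zero_iff (two_ne_zero) |>.mp h4
        linear_combination this
      have h6 : Y 1 0 * (Y 1 0 * Z 0 1 - Y 0 1 * Z 1 0) = 0 := by
        linear_combination (Y 1 0) * ht - 2 * Y 0 0 * h5 - 2 * Z 1 0 * hyq
      have h7 : Y 1 0 * Z 0 1 = Y 0 1 * Z 1 0 := by
        have := (mul_eq_zero.mp h6).resolve_left hc'
        linear_combination this
      refine ⟨Z 1 0 / Y 1 0, ?_⟩
      ext i j
      fin_cases i <;> fin_cases j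
      · show Z 0 0 = Z 1 0 / Y 1 0 * Y 0 0
        field_simp
        linear_combination h5
      · show Z 0 1 = Z 1 0 / Y 1 0 * Y 0 1
        field_simp
        linear_combination h7
      · show Z 1 0 = Z 1 0 / Y 1 0 * Y 1 0
        field_simp
      · show Z 1 1 = Z 1 0 / Y 1 0 * Y 1 1
        rw [hz, hy]
        field_simp
        linear_combination - h5
  · have h4 : (Y 0 1 * Z 0 0 - Y 0 0 * Z 0 1) ^ 2 = 0 := by
      linear_combination (-1) * (Y 0 1 * Z 0 1) * ht + (Z 0 1 ^ 2) * hyq + (Y 0 1 ^ 2) * hzq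
    have h5 : Y 0 1 * Z 0 0 = Y 0 0 * Z 0 1 := by
      have := pow_eq_zero_iff (two_ne_zero) |>.mp h4
      linear_combination this
    have h6 : Y 0 1 * (Y 0 1 * Z 1 0 - Y 1 0 * Z 0 1) = 0 := by
      linear_combination (Y 0 1) * ht - 2 * Y 0 0 * h5 - 2 * Z 0 1 * hyq
    have h7 : Y 0 1 * Z 1 0 = Y 1 0 * Z 0 1 := by
      have := (mul_eq_zero.mp h6).resolve_left hb
      linear_combination this
    refine ⟨Z 0 1 / Y 0 1, ?_⟩
    ext i j
    fin_cases i <;> fin_cases j
    · show Z 0 0 = Z 0 1 / Y 0 1 * Y 0 0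
      field_simp
      linear_combination h5
    · show Z 0 1 = Z 0 1 / Y 0 1 * Y 0 1
      field_simp
    · show Z 1 0 = Z 0 1 / Y 0 1 * Y 1 0
      field_simp
      linear_combination h7
    · show Z 1 1 = Z 0 1 / Y 0 1 * Y 1 1
      rw [hz, hy]
      field_simp
      linear_combination - h5

/-- powers of `1 + Y` -/
theorem one_add_pow {Y : Matrix (Fin 2) (Fin 2) k} (hY : Y * Y = 0) (j : ℕ) :
    (1 + Y) ^ j = 1 + (j : k) • Y := by
  induction j with
  | zero => simp
  | succ j ih =>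
    rw [pow_succ, ih, mul_add, mul_one, add_mul, one_mul, Matrix.smul_mul, hY, smul_zero,
      add_zero, Nat.cast_succ, add_smul, one_smul]
    abel

end Pool.Agent.UTF
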