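import Pool.Agent.Helper37.Fc.StabF

/-!
# Project UTF (MP_6cbef8_nt), module Det: functions with few translates are determined by classes of small quotients

`K = (A.card ^ m)!` depends on `E` and `m` only, not on the group `G`.
-/

set_option autoImplicit false

namespace Pool.Agent.UTF

open Pool.Agent.Helper37.Fc

theorem det_uniform {E : Type*} [NontriviallyNormedField E] [IsUltrametricDist E]
    {G : Type*} [Group G] [TopologicalSpace G] [IsTopologicalGroup G] [CompactSpace G]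
    (A : Finset E) (hA : ∀ x : E, ‖x‖ ≤ 1 → ∃ a ∈ A, ‖x - a‖ < 1) (m : ℕ) (D : Set G)
    (hD : ∀ U : Subgroup G, U.Normal → IsOpen (U : Set G) → U.index ≤ (A.card ^ m).factorial →
      ∀ g : G, ∃ r ∈ D, ∃ h : G, g⁻¹ * (h * r * h⁻¹) ∈ U)
    (f : C(G, E)) (S : Submodule E C(G, E)) [FiniteDimensional E S]
    (hm : Module.finrank E S ≤ m) (hS : ∀ h, rt h f ∈ S)
    (h0 : ∀ r ∈ D, ∀ h : G, f (h * r * h⁻¹) = 0) (g : G) : f g = 0 := by
  classical
  have hAcard : 1 ≤ A.card := by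
    obtain ⟨a, ha, _⟩ := hA 0 (by simp)
    exact Finset.card_pos.mpr ⟨a, ha⟩
  by_contra hfx
  obtain ⟨u₀, -, hu₀⟩ := isCompact_univ.exists_isMaxOn (Set.univ_nonempty (α := G))
    (f.continuous.norm.continuousOn)
  have hmax : ∀ u, ‖f u‖ ≤ ‖f u₀‖ := fun u => hu₀ (Set.mem_univ u)
  have hne : f u₀ ≠ 0 := by
    intro h1
    apply hfx
    have h2 := hmax g
    rw [h1, norm_zero] at h2
    exact norm_le_zero_iff.mp h2
  obtain ⟨f₂, hf₂⟩ : ∃ f₂ : C(G, E), f₂ = (f u₀)⁻¹ • f := ⟨_, rfl⟩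
  have hf₂v : ∀ u, f₂ u = (f u₀)⁻¹ * f u := fun u => by rw [hf₂]; rfl
  have hf₂n : ‖f₂‖ ≤ 1 := by
    rw [ContinuousMap.norm_le _ zero_le_one]
    intro u
    rw [hf₂v, norm_mul, norm_inv]
    rw [inv_mul_le_iff₀ (norm_pos_iff.mpr hne), mul_one]
    exact hmax u
  obtain ⟨H, hHo, hHi, hH⟩ := exists_stab A hA f₂ hf₂n S (fun h => by
    have e : rt h f₂ = (f u₀)⁻¹ • rt h f := by rw [hf₂]; rfl
    rw [e]
    exact S.smul_mem _ (hS h))
  have hHi' : H.index ≤ A.card ^ m := hHi.trans (Nat.pow_le_pow_right hAcard hm)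
  have hHf : Finite (G ⧸ H) := Subgroup.quotient_finite_of_isOpen H hHo
  have hHfi : H.FiniteIndex := Subgroup.finiteIndex_of_finite_quotient
  -- the normal core
  have hcf : H.normalCore.FiniteIndex := inferInstance
  have hco : IsOpen (H.normalCore : Set G) :=
    Subgroup.isOpen_of_isClosed_of_finiteIndex _
      (H.normalCore_isClosed (Subgroup.isClosed_of_isOpen H hHo))
  have hci : H.normalCore.index ≤ (A.card ^ m).factorial := by
    have hft : Fintype (G ⧸ H) := Fintype.ofFinite _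
    rw [Subgroup.normalCore_eq_ker, Subgroup.index_ker]
    calc Nat.card (MulAction.toPermHom G (G ⧸ H)).range
        ≤ Nat.card (Equiv.Perm (G ⧸ H)) := Nat.card_le_card_of_injective _ Subtype.val_injective
      _ = (Nat.card (G ⧸ H)).factorial := Nat.card_perm
      _ ≤ (A.card ^ m).factorial := Nat.factorial_le hHi'
  obtain ⟨r, hr, h, hrh⟩ := hD H.normalCore inferInstance hco hci u₀
  have h1 := hH _ (H.normalCore_le hrh) u₀
  rw [mul_inv_cancel_left, hf₂v, hf₂v, h0 r hr h, mul_zero, zero_sub, norm_neg,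
    inv_mul_cancel₀ hne, norm_one] at h1
  exact lt_irrefl _ h1

end Pool.Agent.UTF
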