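import Pool.Agent.Helper37.Fc.StabF

/-!
# Project UTF (MP_6cbef8_nt), module DetC: functions with few translates on a coset

`K = (A.card ^ m)!` depends on `E` and `m` only, not on the group `G`.
-/

set_option autoImplicit false

namespace Pool.Agent.UTF

open Pool.Agent.Helper37.Fc

/-- translation and restriction to a subgroup -/
private def trl {E : Type*} [NontriviallyNormedField E] {G : Type*} [Group G] [TopologicalSpace G]
    [IsTopologicalGroup G] (U : Subgroup G) (g : G) : C(G, E) →ₗ[E] C(U, E) where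
  toFun s := ⟨fun u => s (g * u), s.continuous.comp (continuous_const.mul continuous_subtype_val)⟩
  map_add' s t := rfl
  map_smul' c s := rfl

theorem det_coset {E : Type*} [NontriviallyNormedField E] [IsUltrametricDist E]
    {G : Type*} [Group G] [TopologicalSpace G] [IsTopologicalGroup G] [CompactSpace G]
    (A : Finset E) (hA : ∀ x : E, ‖x‖ ≤ 1 → ∃ a ∈ A, ‖x - a‖ < 1) (m : ℕ) {U : Subgroup G}
    (hU : IsOpen (U : Set G)) (g : G) (D : Set G)
    (hD : ∀ W : Subgroup U, W.Normal → IsOpen (W : Set U) → W.index ≤ (A.card ^ m).factorial →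
      ∀ u : U, ∃ w ∈ W, g * (u * w : U) ∈ D)
    (f : C(G, E)) (S : Submodule E C(G, E)) (hSf : FiniteDimensional E S)
    (hm : Module.finrank E S ≤ m) (hS : ∀ h, rt h f ∈ S)
    (h0 : ∀ r ∈ D, f r = 0) (u : U) : f (g * u) = 0 := by
  classical
  have hAcard : 1 ≤ A.card := by
    obtain ⟨a, ha, _⟩ := hA 0 (by simp)
    exact Finset.card_pos.mpr ⟨a, ha⟩
  by_contra hfx
  have hUc : CompactSpace U := isCompact_iff_compactSpace.1
    ((Subgroup.isClosed_of_isOpen U hU).isCompact)
  obtain ⟨f', hf'⟩ : ∃ f' : C(U, E), f' = trl U g f := ⟨_, rfl⟩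
  have hf'v : ∀ u : U, f' u = f (g * u) := fun u => by rw [hf']; rfl
  obtain ⟨S', hS'⟩ : ∃ S' : Submodule E C(U, E), S' = S.map (trl U g) := ⟨_, rfl⟩
  have hfdS' : FiniteDimensional E S' := by rw [hS']; infer_instance
  have hfrS' : Module.finrank E S' ≤ m := by
    rw [hS']
    exact (Submodule.finrank_map_le _ _).trans hm
  have hrt : ∀ u : U, rt u f' ∈ S' := by
    intro u
    rw [hS', hf']
    refine Submodule.mem_map.2 ⟨rt (u : G) f, hS _, ?_⟩
    ext v
    have e1 : (trl U g (rt (u : G) f) : C(U, E)) v = f (g * v * u) := rfl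
    have e2 : (rt u (trl U g f) : C(U, E)) v = f (g * ((v * u : U) : G)) := rfl
    rw [e1, e2, Subgroup.coe_mul, mul_assoc]
  obtain ⟨u₀, -, hu₀⟩ := isCompact_univ.exists_isMaxOn (Set.univ_nonempty (α := U))
    (f'.continuous.norm.continuousOn)
  have hmax : ∀ u, ‖f' u‖ ≤ ‖f' u₀‖ := fun u => hu₀ (Set.mem_univ u)
  have hne : f' u₀ ≠ 0 := by
    intro h1
    apply hfx
    have h2 := hmax u
    rw [h1, norm_zero, hf'v] at h2
    exact norm_le_zero_iff.mp h2
  obtain ⟨f₂, hf₂⟩ : ∃ f₂ : C(U, E), f₂ = (f' u₀)⁻¹ • f' := ⟨_, rfl⟩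
  have hf₂v : ∀ u, f₂ u = (f' u₀)⁻¹ * f' u := fun u => by rw [hf₂]; rfl
  have hf₂n : ‖f₂‖ ≤ 1 := by
    rw [ContinuousMap.norm_le _ zero_le_one]
    intro u
    rw [hf₂v, norm_mul, norm_inv]
    rw [inv_mul_le_iff₀ (norm_pos_iff.mpr hne), mul_one]
    exact hmax u
  obtain ⟨H, hHo, hHi, hH⟩ := exists_stab A hA f₂ hf₂n S' (fun h => by
    have e : rt h f₂ = (f' u₀)⁻¹ • rt h f' := by rw [hf₂]; rfl
    rw [e]
    exact S'.smul_mem _ (hrt h))
  have hHi' : H.index ≤ A.card ^ m := hHi.trans (Nat.pow_le_pow_right hAcard hfrS')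
  have hHf : Finite (U ⧸ H) := Subgroup.quotient_finite_of_isOpen H hHo
  have hHfi : H.FiniteIndex := Subgroup.finiteIndex_of_finite_quotient
  -- the normal core
  have hco : IsOpen (H.normalCore : Set U) :=
    Subgroup.isOpen_of_isClosed_of_finiteIndex _
      (H.normalCore_isClosed (Subgroup.isClosed_of_isOpen H hHo))
  have hci : H.normalCore.index ≤ (A.card ^ m).factorial := by
    have hft : Fintype (U ⧸ H) := Fintype.ofFinite _
    rw [Subgroup.normalCore_eq_ker, Subgroup.index_ker]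
    calc Nat.card (MulAction.toPermHom U (U ⧸ H)).range
        ≤ Nat.card (Equiv.Perm (U ⧸ H)) := Nat.card_le_card_of_injective _ Subtype.val_injective
      _ = (Nat.card (U ⧸ H)).factorial := Nat.card_perm
      _ ≤ (A.card ^ m).factorial := Nat.factorial_le hHi'
  obtain ⟨w, hw, hwD⟩ := hD H.normalCore inferInstance hco hci u₀
  have h1 := hH _ (H.normalCore_le hw) u₀
  rw [hf₂v, hf₂v, hf'v (u₀ * w), h0 _ hwD, mul_zero, zero_sub, norm_neg,
    inv_mul_cancel₀ hne, norm_one] at h1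
  exact lt_irrefl _ h1

end Pool.Agent.UTF
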