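import Mathlib

/-!
# Project UTF (MP_6cbef8_nt), module Nil: matrices over `ZMod q` congruent to one

Only Mathlib.
-/

set_option autoImplicit false

namespace Pool.Agent.UTF

/-- two terms of the binomial formula -/
theorem two_terms {A : Type*} [Ring A] (M : A) (N : ℕ) :
    ∃ X, (1 + M) ^ N = 1 + (N : A) * M + M * M * X := by
  induction N with
  | zero => exact ⟨0, by simp⟩
  | succ N ih =>
    obtain ⟨X, hX⟩ := ih
    refine ⟨(N : A) + X * (1 + M), ?_⟩
    have hc : (N : A) * M * M = M * M * (N : A) := by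
      rw [mul_assoc, Nat.cast_comm N (M * M)]
    rw [pow_succ, hX, Nat.cast_succ]
    simp only [mul_add, add_mul, one_mul, mul_one, mul_assoc] at hc ⊢
    rw [hc]
    abel

/-- an element of `ZMod q` with vanishing reductions modulo the primes dividing `q` -/
theorem dvd_of_red {q : ℕ} (hq : q ≠ 0) (x : ZMod q)
    (h : ∀ (r : ℕ) (_ : r.Prime) (hrq : r ∣ q), ZMod.castHom hrq (ZMod r) x = 0) :
    ∃ y : ZMod q, x = ((∏ r ∈ q.primeFactors, r : ℕ) : ZMod q) * y := by
  have hq' : NeZero q := ⟨hq⟩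
  have h1 : ∏ r ∈ q.primeFactors, r ∣ x.val := by
    refine Finset.prod_primes_dvd _ (fun r hr => (Nat.prime_of_mem_primeFactors hr).prime) ?_
    intro r hr
    have h2 := h r (Nat.prime_of_mem_primeFactors hr) (Nat.dvd_of_mem_primeFactors hr)
    rw [← ZMod.natCast_zmod_val x, map_natCast] at h2
    exact (ZMod.natCast_eq_zero_iff _ _).mp h2
  obtain ⟨y, hy⟩ := h1
  refine ⟨(y : ZMod q), ?_⟩
  rw [← Nat.cast_mul, ← hy, ZMod.natCast_zmod_val]

/-- an element of `l`-power order, `l` prime to `q`, congruent to one modulo all primes dividing `q`, is one -/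
theorem eq_one_of_red {l q n b : ℕ} [Fact l.Prime] (hq : q ≠ 0) (hlq : ¬ l ∣ q)
    (w : Matrix (Fin n) (Fin n) (ZMod q)) (hw : w ^ (l ^ b) = 1)
    (h : ∀ (r : ℕ) (_ : r.Prime) (hrq : r ∣ q), w.map (ZMod.castHom hrq (ZMod r)) = 1) :
    w = 1 := by
  have hl : l.Prime := Fact.out
  obtain ⟨M, hM⟩ : ∃ M, M = w - 1 := ⟨_, rfl⟩
  have hwM : w = 1 + M := by rw [hM]; abel
  obtain ⟨a, ha⟩ : ∃ a : ℕ, a = ∏ r ∈ q.primeFactors, r := ⟨_, rfl⟩
  -- all entries are divisible by `a`
  have h0 : ∃ M' : Matrix (Fin n) (Fin n) (ZMod q), M = (a : ZMod q) • M' := by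
    have h1 : ∀ i j, ∃ y : ZMod q, M i j = (a : ZMod q) * y := by
      intro i j
      rw [ha]
      refine dvd_of_red hq _ fun r hr hrq => ?_
      have h2 := congrFun (congrFun (h r hr hrq) i) j
      rw [Matrix.map_apply] at h2
      rw [hM, Matrix.sub_apply, map_sub, h2]
      by_cases hij : i = j
      · rw [hij, Matrix.one_apply_eq, Matrix.one_apply_eq, map_one, sub_self]
      · rw [Matrix.one_apply_ne hij, Matrix.one_apply_ne hij, map_zero, sub_self]
    choose y hy using h1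
    exact ⟨Matrix.of y, by ext i j; exact hy i j⟩
  -- squaring
  have hN : IsUnit ((l ^ b : ℕ) : ZMod q) := by
    rw [ZMod.isUnit_iff_coprime]
    exact Nat.Coprime.pow_left b ((Nat.Prime.coprime_iff_not_dvd hl).mpr hlq)
  obtain ⟨ν, hν⟩ := hN
  have hstep : ∀ c : ZMod q, (∃ M' : Matrix (Fin n) (Fin n) (ZMod q), M = c • M') →
      ∃ M' : Matrix (Fin n) (Fin n) (ZMod q), M = (c * c) • M' := by
    rintro c ⟨M', hM'⟩
    obtain ⟨X, hX⟩ := two_terms M (l ^ b)
    rw [← hwM, hw] at hX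
    have h1 : ((l ^ b : ℕ) : Matrix (Fin n) (Fin n) (ZMod q)) * M =
        ((l ^ b : ℕ) : ZMod q) • M := by
      rw [← nsmul_eq_mul, Nat.cast_smul_eq_nsmul]
    rw [h1, ← hν] at hX
    have h2 : (ν : ZMod q) • M = - (M * M * X) := by
      have h3 : (ν : ZMod q) • M + M * M * X = 0 := by
        have h4 : (1 : Matrix (Fin n) (Fin n) (ZMod q)) + ((ν : ZMod q) • M + M * M * X) = 1 := by
          rw [← add_assoc]; exact hX.symm
        exact (add_eq_left.mp h4)
      exact eq_neg_of_add_eq_zero_left h3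
    refine ⟨((ν⁻¹ : (ZMod q)ˣ) : ZMod q) • (- (M' * M' * X)), ?_⟩
    have h3 : M = ((ν⁻¹ : (ZMod q)ˣ) : ZMod q) • ((ν : ZMod q) • M) := by
      rw [smul_smul, Units.inv_mul, one_smul]
    rw [h3, h2]
    rw [smul_comm (c * c)]
    congr 1
    rw [smul_neg]
    congr 1
    conv_lhs => rw [hM']
    simp only [Matrix.smul_mul, Matrix.mul_smul, smul_smul]
  have hpow : ∀ j : ℕ, ∃ M' : Matrix (Fin n) (Fin n) (ZMod q),
      M = ((a : ZMod q) ^ (2 ^ j)) • M' := by
    intro j
    induction j with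
    | zero => simpa using h0
    | succ j ih =>
      have h1 := hstep _ ih
      rwa [← pow_add, ← two_mul, ← pow_succ'] at h1
  obtain ⟨M', hM'⟩ := hpow q
  have ha0 : ((a : ZMod q) ^ (2 ^ q)) = 0 := by
    rw [← Nat.cast_pow, ZMod.natCast_eq_zero_iff]
    have h1 : q ∣ a ^ q := by
      conv_lhs => rw [← Nat.prod_factorization_pow_eq_self hq]
      rw [ha, ← Finset.prod_pow]
      refine Finset.prod_dvd_prod_of_dvd _ _ fun r hr => ?_
      exact pow_dvd_pow r (Nat.factorization_lt r hq).le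
    exact h1.trans (pow_dvd_pow a Nat.lt_two_pow_self.le)
  rw [ha0, zero_smul] at hM'
  rw [hwM, hM', add_zero]

/-- a matrix congruent to one modulo `l` and modulo `q'` has `l`-power order -/
theorem pow_eq_one_of_red {l a q' n : ℕ} [Fact l.Prime] (hq' : q' ≠ 0) (hlq : ¬ l ∣ q')
    (w : Matrix (Fin n) (Fin n) (ZMod (l ^ (a + 1) * q')))
    (h1 : w.map (ZMod.castHom (dvd_mul_of_dvd_left (dvd_pow_self l (Nat.succ_ne_zero a)) q')
      (ZMod l)) = 1)
    (h2 : w.map (ZMod.castHom (dvd_mul_left q' (l ^ (a + 1))) (ZMod q')) = 1) :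
    w ^ (l ^ (a + 1)) = 1 := by
  have hl : l.Prime := Fact.out
  have hq : NeZero (l ^ (a + 1) * q') := ⟨mul_ne_zero (pow_ne_zero _ hl.ne_zero) hq'⟩
  obtain ⟨M, hM⟩ : ∃ M, M = w - 1 := ⟨_, rfl⟩
  have hwM : w = 1 + M := by rw [hM]; abel
  have hent : ∀ i j, ∃ y : ZMod (l ^ (a + 1) * q'), M i j =
      ((l * q' : ℕ) : ZMod (l ^ (a + 1) * q')) * y := by
    intro i j
    have e1 : l ∣ (M i j).val := by
      have h3 := congrFun (congrFun h1 i) j
      rw [Matrix.map_apply] at h3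
      have h4 : ZMod.castHom (dvd_mul_of_dvd_left (dvd_pow_self l (Nat.succ_ne_zero a)) q')
          (ZMod l) (M i j) = 0 := by
        rw [hM, Matrix.sub_apply, map_sub, h3]
        by_cases hij : i = j
        · rw [hij, Matrix.one_apply_eq, Matrix.one_apply_eq, map_one, sub_self]
        · rw [Matrix.one_apply_ne hij, Matrix.one_apply_ne hij, map_zero, sub_self]
      rw [← ZMod.natCast_zmod_val (M i j), map_natCast] at h4
      exact (ZMod.natCast_eq_zero_iff _ _).mp h4
    have e2 : q' ∣ (M i j).val := by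
      have h3 := congrFun (congrFun h2 i) j
      rw [Matrix.map_apply] at h3
      have h4 : ZMod.castHom (dvd_mul_left q' (l ^ (a + 1))) (ZMod q') (M i j) = 0 := by
        rw [hM, Matrix.sub_apply, map_sub, h3]
        by_cases hij : i = j
        · rw [hij, Matrix.one_apply_eq, Matrix.one_apply_eq, map_one, sub_self]
        · rw [Matrix.one_apply_ne hij, Matrix.one_apply_ne hij, map_zero, sub_self]
      rw [← ZMod.natCast_zmod_val (M i j), map_natCast] at h4
      exact (ZMod.natCast_eq_zero_iff _ _).mp h4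
    obtain ⟨y, hy⟩ := Nat.Coprime.mul_dvd_of_dvd_of_dvd
      ((Nat.Prime.coprime_iff_not_dvd hl).mpr hlq) e1 e2
    refine ⟨(y : ZMod _), ?_⟩
    rw [← Nat.cast_mul, ← hy, ZMod.natCast_zmod_val]
  choose y hy using hent
  have hind : ∀ j : ℕ, ∃ M' : Matrix (Fin n) (Fin n) (ZMod (l ^ (a + 1) * q')),
      w ^ (l ^ j) = 1 + ((l ^ (j + 1) * q' : ℕ) : ZMod (l ^ (a + 1) * q')) • M' := by
    intro j
    induction j with
    | zero =>
      refine ⟨Matrix.of y, ?_⟩
      rw [pow_zero, pow_one, zero_add, pow_one, hwM]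
      congr 1
      ext i j
      exact hy i j
    | succ j ih =>
      obtain ⟨M', hM'⟩ := ih
      obtain ⟨X, hX⟩ := two_terms (((l ^ (j + 1) * q' : ℕ) : ZMod (l ^ (a + 1) * q')) • M') l
      refine ⟨M' + ((l ^ j * q' : ℕ) : ZMod (l ^ (a + 1) * q')) • (M' * M' * X), ?_⟩
      rw [pow_succ l j, pow_mul, hM', hX]
      have e1 : (l : Matrix (Fin n) (Fin n) (ZMod (l ^ (a + 1) * q'))) *
          (((l ^ (j + 1) * q' : ℕ) : ZMod (l ^ (a + 1) * q')) • M') =
          ((l ^ (j + 1 + 1) * q' : ℕ) : ZMod (l ^ (a + 1) * q')) • M' := by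
        rw [← nsmul_eq_mul, ← Nat.cast_smul_eq_nsmul (ZMod (l ^ (a + 1) * q')), smul_smul]
        congr 1
        push_cast
        ring
      rw [e1, smul_add, add_assoc]
      congr 2
      simp only [Matrix.smul_mul, Matrix.mul_smul, smul_smul]
      congr 1
      push_cast
      ring
  obtain ⟨M', hM'⟩ := hind (a + 1)
  have h0 : ((l ^ (a + 1 + 1) * q' : ℕ) : ZMod (l ^ (a + 1) * q')) = 0 := by
    rw [ZMod.natCast_eq_zero_iff, pow_succ l (a + 1)]
    exact ⟨l, by ring⟩
  rw [hM', h0, zero_smul, add_zero]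

end Pool.Agent.UTF
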