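import Pool.Agent.UTF.Alg

/-!
# Project UTF (MP_6cbef8_nt), module Prm: subgroups of order prime to `l` normalised by a unipotent

An element of order divisible by `l` has discriminant zero. If `N` has order prime to `l` and is
normalised by `u = 1 + Y` of order `l`, then `x u ^ a`, `x ∈ N`, has order divisible by `l` for `a`
prime to `l`, so `(tr x + a tr (x Y)) ^ 2 = 4 det x` for `a = 1, 2, 3`, hence `tr (x Y) = 0` and `x`
has discriminant zero and order prime to `l`: it is scalar.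
-/

set_option autoImplicit false

namespace Pool.Agent.UTF

open Matrix

variable {k : Type*} [Field k] [Finite k] {l : ℕ} [Fact l.Prime] [CharP k l]

/-- elements of order divisible by `l` have discriminant zero -/
theorem disc_of_dvd (g : GL (Fin 2) k) (h : l ∣ orderOf g) :
    (g : Matrix (Fin 2) (Fin 2) k).trace ^ 2 = 4 * (g : Matrix (Fin 2) (Fin 2) k).det := by
  have hl : l.Prime := Fact.out
  have hs : orderOf (g ^ (orderOf g / l)) = l := orderOf_pow_orderOf_div (orderOf_pos g).ne' h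
  obtain ⟨s, hsd⟩ : ∃ s, s = g ^ (orderOf g / l) := ⟨_, rfl⟩
  rw [← hsd] at hs
  have hs1 : s ^ l = 1 := by rw [← hs]; exact pow_orderOf_eq_one s
  have hsm : (s : Matrix (Fin 2) (Fin 2) k) ^ (l ^ 1) = 1 := by
    rw [pow_one, ← Units.val_pow_eq_pow_val, hs1, Units.val_one]
  have hY := sq_zero_of_pow (l := l) _ hsm
  refine disc_of_comm hY ?_ ?_
  · intro h0
    have h1 : s = 1 := by
      apply Units.ext
      rw [Units.val_one]
      exact sub_eq_zero.mp h0
    rw [h1, orderOf_one] at hs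
    exact hl.one_lt.ne hs
  · have h1 : (g : Matrix (Fin 2) (Fin 2) k) * s = s * g := by
      rw [hsd, ← Units.val_mul, ← Units.val_mul, ← pow_succ, ← pow_succ']
    rw [mul_sub, sub_mul, h1, mul_one, one_mul]

omit [Finite k] [CharP k l] in
/-- elements of the coset of `u ^ a` have order divisible by `l` -/
theorem dvd_order {N : Subgroup (GL (Fin 2) k)} (hN : ¬ l ∣ Nat.card N) {u : GL (Fin 2) k}
    (hul : u ^ l = 1) (hu1 : u ≠ 1) (hu : ∀ x ∈ N, u * x * u⁻¹ ∈ N) {x : GL (Fin 2) k}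
    (hx : x ∈ N) {a : ℕ} (ha : ¬ l ∣ a) : l ∣ orderOf (x * u ^ a) := by
  have hl : l.Prime := Fact.out
  by_contra hcon
  have hua : ∀ b : ℕ, ∀ w ∈ N, u ^ b * w * (u ^ b)⁻¹ ∈ N := by
    intro b
    induction b with
    | zero => intro w hw; simpa using hw
    | succ b ih =>
      intro w hw
      have h1 := hu _ (ih w hw)
      have h2 : u * (u ^ b * w * (u ^ b)⁻¹) * u⁻¹ = u ^ (b + 1) * w * (u ^ (b + 1))⁻¹ := by
        rw [pow_succ']
        group
      rwa [h2] at h1
  have h1 : ∀ i : ℕ, (x * u ^ a) ^ i * (u ^ (a * i))⁻¹ ∈ N := by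
    intro i
    induction i with
    | zero => simp
    | succ i ih =>
      have h2 := N.mul_mem hx (hua a _ ih)
      have h3 : x * (u ^ a * ((x * u ^ a) ^ i * (u ^ (a * i))⁻¹) * (u ^ a)⁻¹) =
          (x * u ^ a) ^ (i + 1) * (u ^ (a * (i + 1)))⁻¹ := by
        have h4 : (u ^ (a * (i + 1)))⁻¹ = (u ^ (a * i))⁻¹ * (u ^ a)⁻¹ := by
          rw [← _root_.mul_inv_rev, ← pow_add]
          congr 2
          ring
        rw [pow_succ' (x * u ^ a), h4]
        simp only [mul_assoc]
      rwa [h3] at h2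
  have h2 := h1 (orderOf (x * u ^ a))
  rw [pow_orderOf_eq_one, one_mul] at h2
  have h3 : u ^ (a * orderOf (x * u ^ a)) ∈ N := by simpa using N.inv_mem h2
  have h4 : orderOf (u ^ (a * orderOf (x * u ^ a))) ∣ Nat.card N := by
    have := orderOf_dvd_natCard (⟨_, h3⟩ : N)
    rwa [Subgroup.orderOf_mk] at this
  have h5 : orderOf (u ^ (a * orderOf (x * u ^ a))) ∣ l := by
    refine orderOf_dvd_of_pow_eq_one ?_
    rw [← pow_mul, mul_comm, pow_mul, hul, one_pow]
  have h6 : u ^ (a * orderOf (x * u ^ a)) = 1 := by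
    rcases (Nat.dvd_prime hl).mp h5 with h | h
    · exact orderOf_eq_one_iff.mp h
    · rw [h] at h4
      exact absurd h4 hN
  have h7 : l ∣ a * orderOf (x * u ^ a) := by
    rw [← orderOf_eq_prime hul hu1]
    exact orderOf_dvd_of_pow_eq_one h6
  rcases hl.dvd_mul.mp h7 with h | h
  · exact ha h
  · exact hcon h

omit [Finite k] [Fact l.Prime] in
/-- a matrix with discriminant zero and order prime to `l` is scalar -/
theorem scalar_of_disc (hl2 : (2 : k) ≠ 0) (x : GL (Fin 2) k) (hx : ¬ l ∣ orderOf x)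
    (hd : (x : Matrix (Fin 2) (Fin 2) k).trace ^ 2 =
      4 * (x : Matrix (Fin 2) (Fin 2) k).det) :
    ∃ s : k, (x : Matrix (Fin 2) (Fin 2) k) = s • 1 := by
  obtain ⟨X, hX⟩ : ∃ X, X = (x : Matrix (Fin 2) (Fin 2) k) := ⟨_, rfl⟩
  rw [← hX] at hd ⊢
  obtain ⟨α, hα⟩ : ∃ α, α = X.trace / 2 := ⟨_, rfl⟩
  have htr : X.trace = 2 * α := by rw [hα]; field_simp
  have hdet : X.det = α ^ 2 := by
    have h4 : (4 : k) ≠ 0 := by
      have : (4 : k) = 2 * 2 := by norm_num
      rw [this]; exact mul_ne_zero hl2 hl2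
    have h5 : (4 : k) * X.det = 4 * α ^ 2 := by
      rw [← hd, htr]; ring
    exact mul_left_cancel₀ h4 h5
  have hα0 : α ≠ 0 := by
    intro h0
    have h1 : X.det = 0 := by rw [hdet, h0]; ring
    have h2 : IsUnit X.det := by
      rw [hX]
      exact (Matrix.isUnit_iff_isUnit_det _).mp x.isUnit
    rw [h1] at h2
    exact not_isUnit_zero h2
  obtain ⟨Z, hZ⟩ : ∃ Z, Z = α⁻¹ • X - 1 := ⟨_, rfl⟩
  have hXZ : X = α • (1 + Z) := by
    rw [hZ, add_sub_cancel, smul_smul, mul_inv_cancel₀ hα0, one_smul]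
  have hZ2 : Z * Z = 0 := by
    have h1 : Z * Z = (α⁻¹ * α⁻¹) • (X * X) - (2 * α⁻¹) • X + 1 := by
      rw [hZ]
      simp only [mul_sub, sub_mul, Matrix.smul_mul, Matrix.mul_smul, smul_smul, one_mul, mul_one,
        two_mul, add_smul]
      abel
    rw [h1, ch_two, htr, hdet, smul_sub, smul_smul, smul_smul]
    have e1 : α⁻¹ * α⁻¹ * (2 * α) = 2 * α⁻¹ := by field_simp
    have e2 : α⁻¹ * α⁻¹ * α ^ 2 = 1 := by field_simp
    rw [e1, e2, one_smul]
    abel
  have h1 : X ^ orderOf x = 1 := by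
    rw [hX, ← Units.val_pow_eq_pow_val, pow_orderOf_eq_one, Units.val_one]
  rw [hXZ, smul_pow, one_add_pow hZ2] at h1
  have h2 : α ^ orderOf x • Z = Z := by
    have h3 := congrArg (fun A => A * Z) h1
    simp only [Matrix.smul_mul, add_mul, one_mul, hZ2, smul_zero, add_zero] at h3
    exact h3
  by_cases hZ0 : Z = 0
  · exact ⟨α, by rw [hXZ, hZ0, add_zero]⟩
  · exfalso
    have h3 : α ^ orderOf x = 1 := by
      have h4 : (α ^ orderOf x - 1) • Z = 0 := by rw [sub_smul, one_smul, h2, sub_self]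
      rcases smul_eq_zero.mp h4 with h | h
      · exact sub_eq_zero.mp h
      · exact absurd h hZ0
    rw [h3, one_smul] at h1
    have h4 : ((orderOf x : ℕ) : k) • Z = 0 := by
      have := h1
      rwa [add_eq_left] at this
    rcases smul_eq_zero.mp h4 with h | h
    · exact hx ((CharP.cast_eq_zero_iff k l _).mp h)
    · exact hZ0 h

theorem scalar_of_prime_to (hl : 5 ≤ l) (N : Subgroup (GL (Fin 2) k)) (hN : ¬ l ∣ Nat.card N)
    (u : GL (Fin 2) k) (hul : u ^ l = 1) (hu1 : u ≠ 1) (hu : ∀ x ∈ N, u * x * u⁻¹ ∈ N)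
    (x : GL (Fin 2) k) (hx : x ∈ N) : ∃ s : k, (x : Matrix (Fin 2) (Fin 2) k) = s • 1 := by
  have hl2 : (2 : k) ≠ 0 := by
    have h1 : ((2 : ℕ) : k) ≠ 0 := by
      rw [Ne, CharP.cast_eq_zero_iff k l]
      intro h
      have := Nat.le_of_dvd (by norm_num) h
      omega
    exact_mod_cast h1
  have hord : ¬ l ∣ orderOf x := by
    intro h
    have h1 := orderOf_dvd_natCard (⟨x, hx⟩ : N)
    rw [Subgroup.orderOf_mk] at h1
    exact hN (h.trans h1)
  obtain ⟨Y, hYd⟩ : ∃ Y, Y = (u : Matrix (Fin 2) (Fin 2) k) - 1 := ⟨_, rfl⟩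
  have hum : (u : Matrix (Fin 2) (Fin 2) k) = 1 + Y := by rw [hYd]; abel
  have hY : Y * Y = 0 := by
    rw [hYd]
    refine sq_zero_of_pow (l := l) (j := 1) _ ?_
    rw [pow_one, ← Units.val_pow_eq_pow_val, hul, Units.val_one]
  have hdetu : (u : Matrix (Fin 2) (Fin 2) k).det = 1 := by
    obtain ⟨h11, hq⟩ := entries hY
    rw [hum, Matrix.det_fin_two]
    simp only [Matrix.add_apply, Matrix.one_apply_eq, ne_eq, zero_ne_one, not_false_eq_true,
      Matrix.one_apply_ne, zero_add, one_ne_zero, h11]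
    linear_combination - hq
  have hrel : ∀ a : ℕ, ¬ l ∣ a →
      ((x : Matrix (Fin 2) (Fin 2) k).trace + (a : k) * ((x : Matrix (Fin 2) (Fin 2) k) * Y).trace) ^ 2 =
        4 * (x : Matrix (Fin 2) (Fin 2) k).det := by
    intro a ha
    have h1 := disc_of_dvd (l := l) (x * u ^ a) (dvd_order hN hul hu1 hu hx ha)
    rw [Units.val_mul, Units.val_pow_eq_pow_val, Matrix.det_mul, Matrix.det_pow, hdetu, one_pow,
      mul_one, hum, one_add_pow hY, mul_add, mul_one, Matrix.mul_smul, Matrix.trace_add,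
      Matrix.trace_smul, smul_eq_mul] at h1
    exact h1
  have r1 := hrel 1 (fun h => by have := Nat.le_of_dvd (by norm_num) h; omega)
  have r2 := hrel 2 (fun h => by have := Nat.le_of_dvd (by norm_num) h; omega)
  have r3 := hrel 3 (fun h => by have := Nat.le_of_dvd (by norm_num) h; omega)
  push_cast at r1 r2 r3
  have hS : ((x : Matrix (Fin 2) (Fin 2) k) * Y).trace = 0 := by
    have h1 : (2 : k) * ((x : Matrix (Fin 2) (Fin 2) k) * Y).trace ^ 2 = 0 := by
      linear_combination r3 - 2 * r2 + r1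
    exact pow_eq_zero_iff (two_ne_zero) |>.mp ((mul_eq_zero.mp h1).resolve_left hl2)
  rw [hS, mul_zero, add_zero] at r1
  exact scalar_of_disc (l := l) hl2 x hord r1

end Pool.Agent.UTF
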