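import Pool.Agent.UTF.Prm
import Pool.Agent.UTF.Tm

/-!
# Project UTF (MP_6cbef8_nt), module Red: from `q`-torsion to `l`-torsion

If `ρ : Γ → GL_2(k)` contains a conjugate of `SL_2(F_l)` and acts by scalars on the kernel of
`τ : Γ → GL_n(ZMod q)`, `l ∣ q`, `l` large, then it acts by scalars on the kernel of the reduction
of `τ` modulo `l`.
-/

set_option autoImplicit false

namespace Pool.Agent.UTF

open Matrix

/-- the image of `ρ` contains a conjugate of `SL_2` of the prime field -/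
def ContainsSL {l : ℕ} {k : Type*} [Field k] [CharP k l] {Γ : Type*} [Group Γ]
    (ρ : Γ →* GL (Fin 2) k) : Prop :=
  ∃ h : GL (Fin 2) k, ∀ s : Matrix.SpecialLinearGroup (Fin 2) (ZMod l), ∃ y : Γ,
    (ρ y : Matrix (Fin 2) (Fin 2) k) = h * (s : Matrix (Fin 2) (Fin 2) (ZMod l)).map
      (ZMod.castHom (dvd_refl l) k) * ((h⁻¹ : GL (Fin 2) k) : Matrix (Fin 2) (Fin 2) k)

section two

variable {k : Type*} [Field k]

/-- the kernel of a nonzero two by two matrix is at most a line -/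
theorem ker_line {N : Matrix (Fin 2) (Fin 2) k} (hN : N ≠ 0) {w w' : Fin 2 → k}
    (hw : N.mulVec w = 0) (hw' : N.mulVec w' = 0) (hw0 : w ≠ 0) : ∃ s : k, w' = s • w := by
  have e : ∀ (x : Fin 2 → k), N.mulVec x = 0 → ∀ i, N i 0 * x 0 + N i 1 * x 1 = 0 := by
    intro x hx i
    have := congrFun hx i
    rwa [Matrix.mulVec, dotProduct, Fin.sum_univ_two] at this
  have hdet : w 0 * w' 1 = w 1 * w' 0 := by
    by_contra hcon
    apply hN
    have hne : w 0 * w' 1 - w 1 * w' 0 ≠ 0 := sub_ne_zero.mpr hcon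
    ext i j
    have h1 := e w hw i
    have h2 := e w' hw' i
    have h3 : N i 0 * (w 0 * w' 1 - w 1 * w' 0) = 0 := by
      linear_combination w' 1 * h1 - w 1 * h2
    have h4 : N i 1 * (w 0 * w' 1 - w 1 * w' 0) = 0 := by
      linear_combination w 0 * h2 - w' 0 * h1
    fin_cases j
    · exact (mul_eq_zero.mp h3).resolve_right hne
    · exact (mul_eq_zero.mp h4).resolve_right hne
  by_cases h0 : w 0 = 0
  · have h1 : w 1 ≠ 0 := by
      intro h1
      apply hw0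
      ext i
      fin_cases i
      · exact h0
      · exact h1
    refine ⟨w' 1 / w 1, ?_⟩
    ext i
    fin_cases i
    · show w' 0 = w' 1 / w 1 * w 0
      field_simp
      linear_combination - hdet
    · show w' 1 = w' 1 / w 1 * w 1
      field_simp
  · refine ⟨w' 0 / w 0, ?_⟩
    ext i
    fin_cases i
    · show w' 0 = w' 0 / w 0 * w 0
      field_simp
    · show w' 1 = w' 0 / w 0 * w 1
      field_simp
      linear_combination hdet

theorem exists_image {N : Matrix (Fin 2) (Fin 2) k} (hN : N ≠ 0) : ∃ v, N.mulVec v ≠ 0 := by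
  by_contra hcon
  push Not at hcon
  apply hN
  ext i j
  have := congrFun (hcon (Pi.single j 1)) i
  rwa [Matrix.mulVec_single_one] at this

/-- the scalar matrices -/
def scal (k : Type*) [Field k] : Subgroup (GL (Fin 2) k) where
  carrier := {x | ∃ s : k, (x : Matrix (Fin 2) (Fin 2) k) = s • 1}
  mul_mem' := by
    rintro x y ⟨s, hs⟩ ⟨t, ht⟩
    exact ⟨s * t, by rw [Units.val_mul, hs, ht, Matrix.smul_mul, one_mul, smul_smul]⟩
  one_mem' := ⟨1, by rw [Units.val_one, one_smul]⟩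
  inv_mem' := by
    rintro x ⟨s, hs⟩
    have h1 : (x : Matrix (Fin 2) (Fin 2) k) * ((x⁻¹ : GL (Fin 2) k) : Matrix (Fin 2) (Fin 2) k) =
        1 := by rw [← Units.val_mul, mul_inv_cancel, Units.val_one]
    rw [hs, Matrix.smul_mul, one_mul] at h1
    have hs0 : s ≠ 0 := by
      intro h0
      rw [h0, zero_smul] at h1
      exact zero_ne_one h1
    refine ⟨s⁻¹, ?_⟩
    rw [← h1, smul_smul, inv_mul_cancel₀ hs0, one_smul]

theorem mem_scal {x : GL (Fin 2) k} :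
    x ∈ scal k ↔ ∃ s : k, (x : Matrix (Fin 2) (Fin 2) k) = s • 1 := Iff.rfl

instance : (scal k).Normal := ⟨by
  rintro x ⟨s, hs⟩ g
  refine ⟨s, ?_⟩
  rw [Units.val_mul, Units.val_mul, hs, Matrix.mul_smul, mul_one, Matrix.smul_mul,
    ← Units.val_mul, mul_inv_cancel, Units.val_one]⟩

end two

section sl

variable {l : ℕ} {k : Type*} [Field k] [CharP k l] {Γ : Type*} [Group Γ]

/-- `SL_2(F_l)` in `GL_2(k)` -/
def slm (l : ℕ) (k : Type*) [Field k] [CharP k l] :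
    Matrix.SpecialLinearGroup (Fin 2) (ZMod l) →* GL (Fin 2) k :=
  (Matrix.GeneralLinearGroup.map (ZMod.castHom (dvd_refl l) k)).comp
    Matrix.SpecialLinearGroup.toGL

theorem slm_coe (s : Matrix.SpecialLinearGroup (Fin 2) (ZMod l)) :
    (slm l k s : Matrix (Fin 2) (Fin 2) k) = (s : Matrix (Fin 2) (Fin 2) (ZMod l)).map
      (ZMod.castHom (dvd_refl l) k) := rfl

theorem containsSL_iff {ρ : Γ →* GL (Fin 2) k} (hρ : ContainsSL (l := l) ρ) :
    ∃ h : GL (Fin 2) k, ∀ s, ∃ y : Γ, ρ y = h * slm l k s * h⁻¹ := by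
  obtain ⟨h, hh⟩ := hρ
  refine ⟨h, fun s => ?_⟩
  obtain ⟨y, hy⟩ := hh s
  exact ⟨y, Units.ext hy⟩

end sl

/-- upper unipotent -/
def uu {R : Type*} [CommRing R] (b : R) : Matrix.SpecialLinearGroup (Fin 2) R :=
  ⟨!![1, b; 0, 1], by simp [Matrix.det_fin_two_of]⟩

/-- lower unipotent -/
def ll {R : Type*} [CommRing R] (b : R) : Matrix.SpecialLinearGroup (Fin 2) R :=
  ⟨!![1, 0; b, 1], by simp [Matrix.det_fin_two_of]⟩

/-- torus -/
def tt {R : Type*} [CommRing R] (b : Rˣ) : Matrix.SpecialLinearGroup (Fin 2) R :=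
  ⟨!![(b : R), 0; 0, ((b⁻¹ : Rˣ) : R)], by simp [Matrix.det_fin_two_of]⟩

theorem uu_mul {R : Type*} [CommRing R] (a b : R) : uu a * uu b = uu (a + b) := by
  apply Subtype.ext
  show !![1, a; 0, 1] * !![1, b; 0, 1] = !![1, a + b; 0, 1]
  rw [Matrix.mul_fin_two]
  congr 1
  ext i j
  fin_cases i <;> fin_cases j <;> simp [add_comm]

theorem uu_pow {R : Type*} [CommRing R] (b : R) (m : ℕ) : uu b ^ m = uu ((m : R) * b) := by
  induction m with
  | zero =>
    rw [pow_zero, Nat.cast_zero, zero_mul]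
    apply Subtype.ext
    show (1 : Matrix (Fin 2) (Fin 2) R) = !![1, 0; 0, 1]
    exact Matrix.one_fin_two
  | succ m ih =>
    rw [pow_succ, ih, uu_mul]
    congr 1
    push_cast
    ring

theorem tt_uu {R : Type*} [CommRing R] (b : Rˣ) :
    tt b * uu (1 : R) = uu ((b : R) ^ 2) * tt b := by
  apply Subtype.ext
  show !![(b : R), 0; 0, ((b⁻¹ : Rˣ) : R)] * !![1, 1; 0, 1] =
    !![1, (b : R) ^ 2; 0, 1] * !![(b : R), 0; 0, ((b⁻¹ : Rˣ) : R)]
  rw [Matrix.mul_fin_two, Matrix.mul_fin_two]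
  have h1 : (b : R) ^ 2 * ((b⁻¹ : Rˣ) : R) = b := by
    rw [pow_two, mul_assoc, Units.mul_inv, mul_one]
  simp [h1]

section irr

variable {l : ℕ} [Fact l.Prime] {k : Type*} [Field k] [CharP k l] {Γ : Type*} [Group Γ]

theorem slm_uu_ne (b : ZMod l) (hb : b ≠ 0) : slm l k (uu b) ∉ scal k := by
  rintro ⟨s, hs⟩
  have h1 := congrFun (congrFun hs 0) 1
  rw [slm_coe, Matrix.map_apply, Matrix.smul_apply, Matrix.one_apply_ne (by decide), smul_zero] at h1
  have h2 : (uu b : Matrix (Fin 2) (Fin 2) (ZMod l)) 0 1 = b := rfl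
  rw [h2] at h1
  exact hb ((map_eq_zero_iff _ (RingHom.injective _)).mp h1)

theorem slm_uu_pow (b : ZMod l) : slm l k (uu b) ^ l = 1 := by
  rw [← map_pow, uu_pow, ZMod.natCast_self, zero_mul]
  have h1 : uu (0 : ZMod l) = 1 := by
    have := uu_pow (0 : ZMod l) 0
    rw [pow_zero, mul_zero] at this
    exact this.symm
  rw [h1, map_one]

/-- irreducible, of order divisible by `l` -/
theorem irr_of_containsSL (ρ : Γ →* GL (Fin 2) k) (hρ : ContainsSL (l := l) ρ) :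
    (∀ v : Fin 2 → k, v ≠ 0 → ∃ y : Γ, ∀ s : k,
      (ρ y : Matrix (Fin 2) (Fin 2) k).mulVec v ≠ s • v) ∧ ∃ y, l ∣ orderOf (ρ y) := by
  have hl : l.Prime := Fact.out
  obtain ⟨h, hh⟩ := containsSL_iff hρ
  refine ⟨fun v hv => ?_, ?_⟩
  · obtain ⟨v', hv'⟩ : ∃ v', v' = ((h⁻¹ : GL (Fin 2) k) : Matrix (Fin 2) (Fin 2) k).mulVec v :=
      ⟨_, rfl⟩
    have hvv : v = (h : Matrix (Fin 2) (Fin 2) k).mulVec v' := by
      rw [hv', Matrix.mulVec_mulVec, ← Units.val_mul, mul_inv_cancel, Units.val_one,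
        Matrix.one_mulVec]
    have hv'0 : v' ≠ 0 := by
      intro h0
      apply hv
      rw [hvv, h0, Matrix.mulVec_zero]
    -- it suffices to find `x` in `SL_2(F_l)`
    have key : ∀ x : Matrix.SpecialLinearGroup (Fin 2) (ZMod l),
        (∀ s : k, (slm l k x : Matrix (Fin 2) (Fin 2) k).mulVec v' ≠ s • v') →
        ∃ y : Γ, ∀ s : k, (ρ y : Matrix (Fin 2) (Fin 2) k).mulVec v ≠ s • v := by
      intro x hx
      obtain ⟨y, hy⟩ := hh x
      refine ⟨y, fun s hs => hx s ?_⟩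
      rw [hy, Units.val_mul, Units.val_mul, ← Matrix.mulVec_mulVec, ← Matrix.mulVec_mulVec,
        ← hv', hvv, ← Matrix.mulVec_smul] at hs
      have h1 := congrArg (fun z => ((h⁻¹ : GL (Fin 2) k) : Matrix (Fin 2) (Fin 2) k).mulVec z) hs
      simp only [Matrix.mulVec_mulVec] at h1
      rw [← Matrix.mul_assoc, ← Units.val_mul, inv_mul_cancel, Units.val_one, Matrix.one_mul,
        Matrix.one_mulVec] at h1
      exact h1
    by_cases h1 : v' 1 = 0
    · have h0 : v' 0 ≠ 0 := by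
        intro h0
        apply hv'0
        ext i
        fin_cases i
        · exact h0
        · exact h1
      refine key (ll 1) fun s hs => ?_
      have e0 := congrFun hs 0
      have e1 := congrFun hs 1
      rw [slm_coe] at e0 e1
      simp [Matrix.mulVec, dotProduct, Fin.sum_univ_two, ll, h1] at e0 e1
      exact h0 e1
    · refine key (uu 1) fun s hs => ?_
      have e0 := congrFun hs 0
      have e1 := congrFun hs 1
      rw [slm_coe] at e0 e1
      simp [Matrix.mulVec, dotProduct, Fin.sum_univ_two, uu] at e0 e1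
      have hs1 : s = 1 := mul_right_cancel₀ h1 (by rw [one_mul]; exact e1.symm)
      rw [hs1, one_mul] at e0
      exact h1 (by simpa using e0)
  · obtain ⟨y, hy⟩ := hh (uu 1)
    refine ⟨y, ?_⟩
    have h1 : ρ y ^ l = 1 := by
      rw [hy, conj_pow, slm_uu_pow, mul_one, mul_inv_cancel]
    have h2 : ρ y ≠ 1 := by
      intro h0
      rw [hy] at h0
      have h3 : slm l k (uu 1) = 1 := by
        have := congrArg (fun z => h⁻¹ * z * h) h0
        simpa [mul_assoc] using this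
      exact slm_uu_ne (k := k) (1 : ZMod l) one_ne_zero (h3 ▸ (scal k).one_mem)
    rw [orderOf_eq_prime h1 h2]

end irr

section main

variable {l : ℕ} [Fact l.Prime] {k : Type*} [Field k] [Finite k] [CharP k l] {Γ : Type*} [Group Γ]

/-- a matrix with a scalar `l`-power is a scalar times a unipotent matrix -/
theorem form_of_pow {x : GL (Fin 2) k} {j : ℕ} (hx : x ^ (l ^ j) ∈ scal k) :
    ∃ (d : k) (N : Matrix (Fin 2) (Fin 2) k), d ≠ 0 ∧ N * N = 0 ∧
      (x : Matrix (Fin 2) (Fin 2) k) = d • (1 + N) := by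
  obtain ⟨c, hc⟩ := hx
  obtain ⟨d, hd⟩ := (iterateFrobeniusEquiv k l j).surjective c
  have hd' : d ^ (l ^ j) = c := by
    rw [← hd]
    rfl
  have hc0 : c ≠ 0 := by
    intro h0
    have h1 : ((x ^ (l ^ j) : GL (Fin 2) k) : Matrix (Fin 2) (Fin 2) k).det = 0 := by
      rw [hc, h0, zero_smul, Matrix.det_zero]
    have h2 : IsUnit ((x ^ (l ^ j) : GL (Fin 2) k) : Matrix (Fin 2) (Fin 2) k).det :=
      (Matrix.isUnit_iff_isUnit_det _).mp (x ^ (l ^ j)).isUnit
    rw [h1] at h2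
    exact not_isUnit_zero h2
  have hd0 : d ≠ 0 := by
    rintro rfl
    rw [zero_pow (pow_ne_zero _ (Fact.out : l.Prime).ne_zero)] at hd'
    exact hc0 hd'.symm
  refine ⟨d, d⁻¹ • (x : Matrix (Fin 2) (Fin 2) k) - 1, hd0, ?_, ?_⟩
  · refine sq_zero_of_pow (l := l) (j := j) _ ?_
    rw [smul_pow, ← Units.val_pow_eq_pow_val, hc, smul_smul, ← hd', ← mul_pow,
      inv_mul_cancel₀ hd0, one_pow, one_smul]
  · rw [add_sub_cancel, smul_smul, mul_inv_cancel₀ hd0, one_smul]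

omit [Fact l.Prime] [Finite k] in
theorem two_ne (h5 : 5 ≤ l) : (2 : k) ≠ 0 := by
  have h1 : ((2 : ℕ) : k) ≠ 0 := by
    rw [Ne, CharP.cast_eq_zero_iff k l]
    intro h
    have := Nat.le_of_dvd (by norm_num) h
    omega
  exact_mod_cast h1

omit [Finite k] in
/-- determinant of `1 + N` -/
theorem det_one_add {N : Matrix (Fin 2) (Fin 2) k} (hN : N * N = 0) : (1 + N).det = 1 := by
  obtain ⟨h11, hq⟩ := entries hN
  rw [Matrix.det_fin_two]
  simp only [Matrix.add_apply, Matrix.one_apply_eq, ne_eq, zero_ne_one, not_false_eq_true,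
    Matrix.one_apply_ne, zero_add, one_ne_zero, h11]
  linear_combination - hq

omit [Finite k] in
theorem trace_one_add {N : Matrix (Fin 2) (Fin 2) k} (hN : N * N = 0) : (1 + N).trace = 2 := by
  rw [Matrix.trace_add, trace_zero_of_sq hN, Matrix.trace_one, Fintype.card_fin, add_zero]
  norm_num

/-- a normal subgroup which is an `l`-group modulo scalars is scalar -/
theorem scalar_of_lgroup (h5 : 5 ≤ l) (ρ : Γ →* GL (Fin 2) k)
    (hirr : ∀ v : Fin 2 → k, v ≠ 0 → ∃ y : Γ, ∀ s : k,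
      (ρ y : Matrix (Fin 2) (Fin 2) k).mulVec v ≠ s • v) (Z : Subgroup Γ) [Z.Normal] {j : ℕ}
    (hZ : ∀ z ∈ Z, ρ z ^ (l ^ j) ∈ scal k) {z : Γ} (hz : z ∈ Z) : ρ z ∈ scal k := by
  have hl2 : (2 : k) ≠ 0 := two_ne (l := l) h5
  obtain ⟨d, N, hd, hN, hx⟩ := form_of_pow (hZ z hz)
  by_cases hN0 : N = 0
  · exact ⟨d, by rw [hx, hN0, add_zero]⟩
  exfalso
  -- the nilpotent parts of two elements
  have hB : ∀ z' ∈ Z, ∀ (d' : k) (N' : Matrix (Fin 2) (Fin 2) k), d' ≠ 0 → N' * N' = 0 →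
      (ρ z' : Matrix (Fin 2) (Fin 2) k) = d' • (1 + N') → (N * N').trace = 0 := by
    intro z' hz' d' N' hd' hN' hx'
    have hrel : ∀ i : ℕ, (2 + (i : k) * (N * N').trace) ^ 2 = 4 := by
      intro i
      obtain ⟨e, N'', he, hN'', hx''⟩ := form_of_pow (hZ (z ^ i * z') (Z.mul_mem (Z.pow_mem hz i) hz'))
      have h1 : (ρ (z ^ i * z') : Matrix (Fin 2) (Fin 2) k) =
          (d ^ i * d') • ((1 + (i : k) • N) * (1 + N')) := by
        rw [map_mul, map_pow, Units.val_mul, Units.val_pow_eq_pow_val, hx, hx', smul_pow,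
          one_add_pow hN, Matrix.smul_mul, Matrix.mul_smul, smul_smul]
      have hiN : ((i : k) • N) * ((i : k) • N) = 0 := by
        rw [Matrix.smul_mul, Matrix.mul_smul, hN, smul_zero, smul_zero]
      have h2 : (ρ (z ^ i * z') : Matrix (Fin 2) (Fin 2) k).det = (d ^ i * d') ^ 2 := by
        rw [h1, Matrix.det_smul, Matrix.det_mul, det_one_add hiN, det_one_add hN', mul_one,
          mul_one, Fintype.card_fin]
      have h3 : (ρ (z ^ i * z') : Matrix (Fin 2) (Fin 2) k).trace =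
          (d ^ i * d') * (2 + (i : k) * (N * N').trace) := by
        rw [h1, Matrix.trace_smul, smul_eq_mul]
        congr 1
        rw [mul_add, mul_one, add_mul, one_mul, Matrix.trace_add, trace_one_add hiN,
          Matrix.trace_add, trace_zero_of_sq hN', zero_add, Matrix.smul_mul, Matrix.trace_smul,
          smul_eq_mul]
      have h4 : (ρ (z ^ i * z') : Matrix (Fin 2) (Fin 2) k).det = e ^ 2 := by
        rw [hx'', Matrix.det_smul, det_one_add hN'', mul_one, Fintype.card_fin]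
      have h5' : (ρ (z ^ i * z') : Matrix (Fin 2) (Fin 2) k).trace = e * 2 := by
        rw [hx'', Matrix.trace_smul, trace_one_add hN'', smul_eq_mul]
      have hne : (d ^ i * d') ^ 2 ≠ 0 := pow_ne_zero 2 (mul_ne_zero (pow_ne_zero i hd) hd')
      apply mul_left_cancel₀ hne
      calc (d ^ i * d') ^ 2 * (2 + (i : k) * (N * N').trace) ^ 2
          = ((d ^ i * d') * (2 + (i : k) * (N * N').trace)) ^ 2 := by ring
        _ = (e * 2) ^ 2 := by rw [← h3, h5']
        _ = e ^ 2 * 4 := by ring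
        _ = (d ^ i * d') ^ 2 * 4 := by rw [← h4, h2]
    have r1 := hrel 1
    have r2 := hrel 2
    push_cast at r1 r2
    have h1 : (N * N').trace * (2 * 2 * 2) = 0 := by
      linear_combination 4 * r1 - r2
    exact (mul_eq_zero.mp h1).resolve_right (mul_ne_zero (mul_ne_zero hl2 hl2) hl2)
  obtain ⟨v, hv⟩ := exists_image hN0
  obtain ⟨y, hy⟩ := hirr _ hv
  -- the conjugate of `z`
  have hinv : ((ρ y : GL (Fin 2) k) : Matrix (Fin 2) (Fin 2) k) *
      (((ρ y)⁻¹ : GL (Fin 2) k) : Matrix (Fin 2) (Fin 2) k) = 1 := by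
    rw [← Units.val_mul, mul_inv_cancel, Units.val_one]
  have hinv' : (((ρ y)⁻¹ : GL (Fin 2) k) : Matrix (Fin 2) (Fin 2) k) *
      ((ρ y : GL (Fin 2) k) : Matrix (Fin 2) (Fin 2) k) = 1 := by
    rw [← Units.val_mul, inv_mul_cancel, Units.val_one]
  obtain ⟨N', hN'⟩ : ∃ N', N' = (ρ y : Matrix (Fin 2) (Fin 2) k) * N *
      (((ρ y)⁻¹ : GL (Fin 2) k) : Matrix (Fin 2) (Fin 2) k) := ⟨_, rfl⟩
  have hN'2 : N' * N' = 0 := by
    calc N' * N' = (ρ y : Matrix (Fin 2) (Fin 2) k) * N *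
          ((((ρ y)⁻¹ : GL (Fin 2) k) : Matrix (Fin 2) (Fin 2) k) *
          (ρ y : Matrix (Fin 2) (Fin 2) k)) * N *
          (((ρ y)⁻¹ : GL (Fin 2) k) : Matrix (Fin 2) (Fin 2) k) := by
            rw [hN']; simp only [Matrix.mul_assoc]
      _ = (ρ y : Matrix (Fin 2) (Fin 2) k) * (N * N) *
          (((ρ y)⁻¹ : GL (Fin 2) k) : Matrix (Fin 2) (Fin 2) k) := by
            rw [hinv', Matrix.mul_one, Matrix.mul_assoc _ N N]
      _ = 0 := by rw [hN, Matrix.mul_zero, Matrix.zero_mul]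
  have hx' : (ρ (y * z * y⁻¹) : Matrix (Fin 2) (Fin 2) k) = d • (1 + N') := by
    rw [map_mul, map_mul, map_inv, Units.val_mul, Units.val_mul, hx, hN', smul_add, smul_add,
      Matrix.mul_add, Matrix.add_mul, Matrix.mul_smul, Matrix.mul_one, Matrix.smul_mul, hinv,
      Matrix.mul_smul, Matrix.smul_mul]
  have ht := hB _ (Subgroup.Normal.conj_mem inferInstance z hz y) d N' hd hN'2 hx'
  obtain ⟨c, hc⟩ := prop_of_trace hN hN'2 hN0 ht
  have hc0 : c ≠ 0 := by
    rintro rfl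
    rw [zero_smul] at hc
    apply hN0
    calc N = ((((ρ y)⁻¹ : GL (Fin 2) k) : Matrix (Fin 2) (Fin 2) k) *
          (ρ y : Matrix (Fin 2) (Fin 2) k)) * N *
          ((((ρ y)⁻¹ : GL (Fin 2) k) : Matrix (Fin 2) (Fin 2) k) *
          (ρ y : Matrix (Fin 2) (Fin 2) k)) := by rw [hinv', Matrix.one_mul, Matrix.mul_one]
      _ = (((ρ y)⁻¹ : GL (Fin 2) k) : Matrix (Fin 2) (Fin 2) k) * N' *
          (ρ y : Matrix (Fin 2) (Fin 2) k) := by rw [hN']; simp only [Matrix.mul_assoc]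
      _ = 0 := by rw [hc, Matrix.mul_zero, Matrix.zero_mul]
  have h1 : N.mulVec ((ρ y : Matrix (Fin 2) (Fin 2) k).mulVec (N.mulVec v)) = 0 := by
    have h2 : N'.mulVec ((ρ y : Matrix (Fin 2) (Fin 2) k).mulVec (N.mulVec v)) = 0 := by
      rw [hN', Matrix.mulVec_mulVec, Matrix.mul_assoc, hinv', Matrix.mul_one,
        Matrix.mulVec_mulVec, Matrix.mul_assoc, hN, Matrix.mul_zero, Matrix.zero_mulVec]
    rw [hc, Matrix.smul_mulVec] at h2
    rcases smul_eq_zero.mp h2 with h | h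
    · exact absurd h hc0
    · exact h
  have h2 : N.mulVec (N.mulVec v) = 0 := by
    rw [Matrix.mulVec_mulVec, hN, Matrix.zero_mulVec]
  obtain ⟨s, hs⟩ := ker_line hN0 h2 h1 hv
  exact hy s hs

omit [Finite k] in
/-- a matrix commuting with all conjugates of a nilpotent matrix is scalar -/
theorem scalar_of_comm (ρ : Γ →* GL (Fin 2) k)
    (hirr : ∀ v : Fin 2 → k, v ≠ 0 → ∃ y : Γ, ∀ s : k,
      (ρ y : Matrix (Fin 2) (Fin 2) k).mulVec v ≠ s • v) {Y : Matrix (Fin 2) (Fin 2) k}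
    (hY : Y * Y = 0) (hY0 : Y ≠ 0) (A : Matrix (Fin 2) (Fin 2) k)
    (hA : ∀ y : Γ, A * ((ρ y : Matrix (Fin 2) (Fin 2) k) * Y *
      (((ρ y)⁻¹ : GL (Fin 2) k) : Matrix (Fin 2) (Fin 2) k)) =
      ((ρ y : Matrix (Fin 2) (Fin 2) k) * Y *
      (((ρ y)⁻¹ : GL (Fin 2) k) : Matrix (Fin 2) (Fin 2) k)) * A) : ∃ s : k, A = s • 1 := by
  obtain ⟨v, hv⟩ := exists_image hY0
  obtain ⟨w, hw⟩ : ∃ w, w = Y.mulVec v := ⟨_, rfl⟩
  rw [← hw] at hv
  have hYw : Y.mulVec w = 0 := by rw [hw, Matrix.mulVec_mulVec, hY, Matrix.zero_mulVec]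
  have hA1 : A * Y = Y * A := by
    have := hA 1
    rwa [map_one, inv_one, Units.val_one, Matrix.one_mul, Matrix.mul_one] at this
  obtain ⟨s, hs⟩ : ∃ s : k, A.mulVec w = s • w := by
    refine ker_line hY0 hYw ?_ hv
    rw [Matrix.mulVec_mulVec, ← hA1, ← Matrix.mulVec_mulVec, hYw, Matrix.mulVec_zero]
  obtain ⟨y, hy⟩ := hirr w hv
  have hinv : ((ρ y : GL (Fin 2) k) : Matrix (Fin 2) (Fin 2) k) *
      (((ρ y)⁻¹ : GL (Fin 2) k) : Matrix (Fin 2) (Fin 2) k) = 1 := by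
    rw [← Units.val_mul, mul_inv_cancel, Units.val_one]
  have hinv' : (((ρ y)⁻¹ : GL (Fin 2) k) : Matrix (Fin 2) (Fin 2) k) *
      ((ρ y : GL (Fin 2) k) : Matrix (Fin 2) (Fin 2) k) = 1 := by
    rw [← Units.val_mul, inv_mul_cancel, Units.val_one]
  obtain ⟨Y', hY'⟩ : ∃ Y', Y' = (ρ y : Matrix (Fin 2) (Fin 2) k) * Y *
      (((ρ y)⁻¹ : GL (Fin 2) k) : Matrix (Fin 2) (Fin 2) k) := ⟨_, rfl⟩
  obtain ⟨w', hw'⟩ : ∃ w', w' = (ρ y : Matrix (Fin 2) (Fin 2) k).mulVec w := ⟨_, rfl⟩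
  have hw'0 : w' ≠ 0 := by
    intro h0
    refine hy 0 ?_
    rw [← hw', h0, zero_smul]
  have hY'0 : Y' ≠ 0 := by
    intro h0
    apply hY0
    calc Y = ((((ρ y)⁻¹ : GL (Fin 2) k) : Matrix (Fin 2) (Fin 2) k) *
          (ρ y : Matrix (Fin 2) (Fin 2) k)) * Y *
          ((((ρ y)⁻¹ : GL (Fin 2) k) : Matrix (Fin 2) (Fin 2) k) *
          (ρ y : Matrix (Fin 2) (Fin 2) k)) := by rw [hinv', Matrix.one_mul, Matrix.mul_one]
      _ = (((ρ y)⁻¹ : GL (Fin 2) k) : Matrix (Fin 2) (Fin 2) k) * Y' *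
          (ρ y : Matrix (Fin 2) (Fin 2) k) := by rw [hY']; simp only [Matrix.mul_assoc]
      _ = 0 := by rw [h0, Matrix.mul_zero, Matrix.zero_mul]
  have hYw' : Y'.mulVec w' = 0 := by
    rw [hY', hw', Matrix.mulVec_mulVec, Matrix.mul_assoc, hinv', Matrix.mul_one,
      ← Matrix.mulVec_mulVec, hYw, Matrix.mulVec_zero]
  have hA2 : A * Y' = Y' * A := by rw [hY']; exact hA y
  obtain ⟨s', hs'⟩ : ∃ s' : k, A.mulVec w' = s' • w' := by
    refine ker_line hY'0 hYw' ?_ hw'0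
    rw [Matrix.mulVec_mulVec, ← hA2, ← Matrix.mulVec_mulVec, hYw', Matrix.mulVec_zero]
  -- `Y w' = t w`, `t ≠ 0`
  obtain ⟨t, ht⟩ : ∃ t : k, Y.mulVec w' = t • w := by
    refine ker_line hY0 hYw ?_ hv
    rw [Matrix.mulVec_mulVec, hY, Matrix.zero_mulVec]
  have ht0 : t ≠ 0 := by
    rintro rfl
    rw [zero_smul] at ht
    obtain ⟨s'', hs''⟩ := ker_line hY0 hYw ht hv
    exact hy s'' (by rw [← hw', hs''])
  have hss : s = s' := by
    have h1 : A.mulVec (Y.mulVec w') = Y.mulVec (A.mulVec w') := by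
      rw [Matrix.mulVec_mulVec, Matrix.mulVec_mulVec, hA1]
    rw [ht, Matrix.mulVec_smul, hs, hs', Matrix.mulVec_smul, ht, smul_smul, smul_smul] at h1
    have h2 : (t * s - s' * t) • w = 0 := by rw [sub_smul, h1, sub_self]
    have h3 := (smul_eq_zero.mp h2).resolve_right hv
    have h4 : t * (s - s') = 0 := by linear_combination h3
    exact sub_eq_zero.mp ((mul_eq_zero.mp h4).resolve_left ht0)
  refine ⟨s, ?_⟩
  by_contra hcon
  have hne : A - s • 1 ≠ 0 := fun h0 => hcon (sub_eq_zero.mp h0)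
  obtain ⟨s'', hs''⟩ := ker_line (N := A - s • 1) hne (w := w) (w' := w')
    (by rw [Matrix.sub_mulVec, hs, Matrix.smul_mulVec, Matrix.one_mulVec, sub_self])
    (by rw [Matrix.sub_mulVec, hs', Matrix.smul_mulVec, Matrix.one_mulVec, hss, sub_self]) hv
  exact hy s'' (by rw [← hw', hs''])

/-- a normal subgroup acts by scalars or irreducibly with order divisible by `l` -/
theorem scalar_or_big (h5 : 5 ≤ l) (ρ : Γ →* GL (Fin 2) k) (hρ : ContainsSL (l := l) ρ)
    (N : Subgroup Γ) [N.Normal] : (∀ y ∈ N, ρ y ∈ scal k) ∨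
      ((∀ v : Fin 2 → k, v ≠ 0 → ∃ y : Γ, y ∈ N ∧ ∀ s : k,
        (ρ y : Matrix (Fin 2) (Fin 2) k).mulVec v ≠ s • v) ∧ ∃ y, y ∈ N ∧ l ∣ orderOf (ρ y)) := by
  have hl : l.Prime := Fact.out
  obtain ⟨hirr, -⟩ := irr_of_containsSL (l := l) ρ hρ
  by_cases hdvd : l ∣ Nat.card (N.map ρ)
  · right
    obtain ⟨x₁, hx₁⟩ := exists_prime_orderOf_dvd_card' l hdvd
    obtain ⟨y₁, hy₁, hyx⟩ := Subgroup.mem_map.mp x₁.2
    have hord : orderOf (ρ y₁) = l := by rw [hyx, Subgroup.orderOf_coe, hx₁]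
    refine ⟨fun v hv => ?_, y₁, hy₁, by rw [hord]⟩
    by_contra hcon
    push Not at hcon
    obtain ⟨Y, hYd⟩ : ∃ Y, Y = (ρ y₁ : Matrix (Fin 2) (Fin 2) k) - 1 := ⟨_, rfl⟩
    have hρY : (ρ y₁ : Matrix (Fin 2) (Fin 2) k) = 1 + Y := by rw [hYd]; abel
    have hY : Y * Y = 0 := by
      rw [hYd]
      refine sq_zero_of_pow (l := l) (j := 1) _ ?_
      rw [pow_one, ← Units.val_pow_eq_pow_val, ← hord, pow_orderOf_eq_one, Units.val_one]
    have hY0 : Y ≠ 0 := by
      intro h0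
      have h1 : ρ y₁ = 1 := Units.ext (by rw [hρY, h0, add_zero, Units.val_one])
      rw [h1, orderOf_one] at hord
      exact hl.one_lt.ne hord
    -- the vectors fixed up to scalars by a conjugate of `y₁` are killed by the nilpotent part
    have key : ∀ g : Γ, Y.mulVec ((ρ g : Matrix (Fin 2) (Fin 2) k).mulVec v) = 0 := by
      intro g
      obtain ⟨s, hs⟩ := hcon (g⁻¹ * y₁ * g) (by
        have := Subgroup.Normal.conj_mem (inferInstanceAs N.Normal) y₁ hy₁ g⁻¹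
        rwa [inv_inv] at this)
      have h1 : (ρ y₁ : Matrix (Fin 2) (Fin 2) k).mulVec
          ((ρ g : Matrix (Fin 2) (Fin 2) k).mulVec v) =
          s • (ρ g : Matrix (Fin 2) (Fin 2) k).mulVec v := by
        rw [← Matrix.mulVec_smul, ← hs, Matrix.mulVec_mulVec, Matrix.mulVec_mulVec,
          ← Units.val_mul, ← Units.val_mul, ← map_mul, ← map_mul]
        congr 3
        group
      obtain ⟨w, hw⟩ : ∃ w, w = (ρ g : Matrix (Fin 2) (Fin 2) k).mulVec v := ⟨_, rfl⟩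
      rw [← hw] at h1 ⊢
      have h2 : Y.mulVec w = (s - 1) • w := by
        rw [hYd, Matrix.sub_mulVec, h1, Matrix.one_mulVec, sub_smul, one_smul]
      have h3 : Y.mulVec (Y.mulVec w) = 0 := by
        rw [Matrix.mulVec_mulVec, hY, Matrix.zero_mulVec]
      rw [h2, Matrix.mulVec_smul, h2, smul_smul] at h3
      rcases smul_eq_zero.mp h3 with h | h
      · rw [h2, mul_self_eq_zero.mp h, zero_smul]
      · rw [h, Matrix.mulVec_zero]
    obtain ⟨g, hg⟩ := hirr v hv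
    have h1 := key 1
    rw [map_one, Units.val_one, Matrix.one_mulVec] at h1
    obtain ⟨s, hs⟩ := ker_line hY0 h1 (key g) hv
    exact hg s hs
  · left
    obtain ⟨h, hh⟩ := containsSL_iff hρ
    obtain ⟨u₀, hu₀⟩ := hh (uu 1)
    have hul : ρ u₀ ^ l = 1 := by
      rw [hu₀, conj_pow, slm_uu_pow, mul_one, mul_inv_cancel]
    have hus : ρ u₀ ∉ scal k := by
      intro h0
      have h1 := Subgroup.Normal.conj_mem (inferInstanceAs (scal k).Normal) _ h0 h⁻¹
      rw [hu₀] at h1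
      have h2 : h⁻¹ * (h * slm l k (uu 1) * h⁻¹) * h⁻¹⁻¹ = slm l k (uu 1) := by group
      rw [h2] at h1
      exact slm_uu_ne (k := k) (1 : ZMod l) one_ne_zero h1
    have hu1 : ρ u₀ ≠ 1 := fun h0 => hus (h0 ▸ (scal k).one_mem)
    intro x hx
    refine scalar_of_prime_to (l := l) h5 (N.map ρ) hdvd (ρ u₀) hul hu1 ?_ (ρ x) ⟨x, hx, rfl⟩
    rintro _ ⟨x', hx', rfl⟩
    refine ⟨u₀ * x' * u₀⁻¹, Subgroup.Normal.conj_mem inferInstance x' hx' u₀, ?_⟩
    rw [map_mul, map_mul, map_inv]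

theorem reduce {n : ℕ} (hn : n < l) (h5 : 5 ≤ l) (hnl : 2 * n.factorial + 1 < l)
    (ρ : Γ →* GL (Fin 2) k)
    (hρ : ContainsSL (l := l) ρ) {q : ℕ} (hq : q ≠ 0) (hlq : l ∣ q)
    (τ : Γ →* GL (Fin n) (ZMod q))
    (hker : ∀ y, τ y = 1 → ∃ s : k, (ρ y : Matrix (Fin 2) (Fin 2) k) = s • 1) (y : Γ)
    (hy : (τ y : Matrix (Fin n) (Fin n) (ZMod q)).map (ZMod.castHom hlq (ZMod l)) = 1) :
    ∃ s : k, (ρ y : Matrix (Fin 2) (Fin 2) k) = s • 1 := by
  have hl : l.Prime := Fact.out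
  have hl2 : (2 : k) ≠ 0 := two_ne (l := l) h5
  obtain ⟨hirr, -⟩ := irr_of_containsSL (l := l) ρ hρ
  obtain ⟨e, q', hq', hqe⟩ := Nat.exists_eq_pow_mul_and_not_dvd hq l hl.ne_one
  obtain ⟨a, rfl⟩ : ∃ a, e = a + 1 := by
    rcases e with _ | a
    · exfalso
      rw [pow_zero, one_mul] at hqe
      exact hq' (hqe ▸ hlq)
    · exact ⟨a, rfl⟩
  subst hqe
  have hq'0 : q' ≠ 0 := fun h0 => hq (by rw [h0, mul_zero])
  obtain ⟨τ', hτ'⟩ : ∃ τ', τ' = (redq q' (dvd_mul_left q' (l ^ (a + 1)))).comp τ := ⟨_, rfl⟩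
  obtain ⟨τl, hτl⟩ : ∃ τl, τl = (redq l hlq).comp τ := ⟨_, rfl⟩
  have hyl : y ∈ τl.ker := by
    rw [MonoidHom.mem_ker, hτl]
    apply Units.ext
    exact hy
  -- the elements trivial modulo `l` and modulo `q'`
  have hZ : ∀ z ∈ τ'.ker ⊓ τl.ker, ρ z ^ (l ^ (a + 1)) ∈ scal k := by
    rintro z ⟨hz1, hz2⟩
    have e1 : (τ z : Matrix (Fin n) (Fin n) (ZMod (l ^ (a + 1) * q'))).map
        (ZMod.castHom hlq (ZMod l)) = 1 := by
      have h1 : τl z = 1 := hz2
      rw [hτl] at h1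
      exact congrArg Units.val h1
    have e2 : (τ z : Matrix (Fin n) (Fin n) (ZMod (l ^ (a + 1) * q'))).map
        (ZMod.castHom (dvd_mul_left q' (l ^ (a + 1))) (ZMod q')) = 1 := by
      have h1 : τ' z = 1 := hz1
      rw [hτ'] at h1
      exact congrArg Units.val h1
    have h3 := pow_eq_one_of_red hq'0 hq' _ e1 e2
    have h4 : τ (z ^ (l ^ (a + 1))) = 1 := by
      rw [map_pow]
      apply Units.ext
      rw [Units.val_pow_eq_pow_val, h3, Units.val_one]
    have h5' := hker _ h4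
    rw [← map_pow]
    exact h5'
  have hZs : ∀ z ∈ τ'.ker ⊓ τl.ker, ρ z ∈ scal k := fun z hz =>
    scalar_of_lgroup h5 ρ hirr _ hZ hz
  -- the prime to `l` part
  have hdvd : l ∣ Nat.card (τ'.ker.map ρ) := by
    by_contra hcon
    obtain ⟨h, hh⟩ := containsSL_iff hρ
    obtain ⟨u₀, hu₀⟩ := hh (uu 1)
    obtain ⟨b, hb⟩ := IsCyclic.exists_generator (α := (ZMod l)ˣ)
    obtain ⟨t₀, ht₀⟩ := hh (tt b)
    have hul : ρ u₀ ^ l = 1 := by
      rw [hu₀, conj_pow, slm_uu_pow, mul_one, mul_inv_cancel]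
    have hus : ρ u₀ ∉ scal k := by
      intro h0
      have h1 := Subgroup.Normal.conj_mem (inferInstanceAs (scal k).Normal) _ h0 h⁻¹
      rw [hu₀] at h1
      have h2 : h⁻¹ * (h * slm l k (uu 1) * h⁻¹) * h⁻¹⁻¹ = slm l k (uu 1) := by group
      rw [h2] at h1
      exact slm_uu_ne (k := k) (1 : ZMod l) one_ne_zero h1
    have hu1 : ρ u₀ ≠ 1 := fun h0 => hus (h0 ▸ (scal k).one_mem)
    have hsc : ∀ x ∈ τ'.ker, ρ x ∈ scal k := by
      intro x hx
      refine scalar_of_prime_to (l := l) h5 (τ'.ker.map ρ) hcon (ρ u₀) hul hu1 ?_ (ρ x) ⟨x, hx, rfl⟩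
      rintro _ ⟨x', hx', rfl⟩
      refine ⟨u₀ * x' * u₀⁻¹, Subgroup.Normal.conj_mem inferInstance x' hx' u₀, ?_⟩
      rw [map_mul, map_mul, map_inv]
    have hm := tame_q (p := l) hn hq'0 hq' τ' ((scal k).comap ρ) (fun x hx => hsc x hx) u₀ t₀
      ((b : ZMod l) ^ 2).val hus (by
        show ρ (u₀ ^ l) ∈ scal k
        rw [map_pow, hul]
        exact (scal k).one_mem) (by
        show ρ (t₀ * u₀ * t₀⁻¹ * (u₀ ^ ((b : ZMod l) ^ 2).val)⁻¹) ∈ scal k
        have h1 : ρ t₀ * ρ u₀ * (ρ t₀)⁻¹ = ρ u₀ ^ ((b : ZMod l) ^ 2).val := by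
          rw [mul_inv_eq_iff_eq_mul, hu₀, ht₀, conj_pow, ← map_pow, uu_pow, mul_one,
            ZMod.natCast_zmod_val]
          have h2 := congrArg (slm l k) (tt_uu b)
          rw [map_mul, map_mul] at h2
          calc h * slm l k (tt b) * h⁻¹ * (h * slm l k (uu 1) * h⁻¹)
              = h * (slm l k (tt b) * slm l k (uu 1)) * h⁻¹ := by group
            _ = h * (slm l k (uu ((b : ZMod l) ^ 2)) * slm l k (tt b)) * h⁻¹ := by rw [h2]
            _ = h * slm l k (uu ((b : ZMod l) ^ 2)) * h⁻¹ * (h * slm l k (tt b) * h⁻¹) := by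
                group
        rw [map_mul, map_mul, map_mul, map_inv, map_inv, map_pow, h1, mul_inv_cancel]
        exact (scal k).one_mem)
    have h1 : ((b : ZMod l) ^ 2) ^ n.factorial = 1 := by
      have h2 := (ZMod.natCast_eq_natCast_iff _ _ _).mpr hm
      rwa [Nat.cast_pow, ZMod.natCast_zmod_val, Nat.cast_one] at h2
    have h2 : b ^ (2 * n.factorial) = 1 := by
      apply Units.ext
      rw [Units.val_pow_eq_pow_val, pow_mul, h1, Units.val_one]
    have h3 : orderOf b = l - 1 := by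
      rw [orderOf_eq_card_of_forall_mem_zpowers hb, Nat.card_eq_fintype_card, ZMod.card_units]
    have h4 := orderOf_dvd_of_pow_eq_one h2
    rw [h3] at h4
    have h6 := Nat.le_of_dvd (by positivity) h4
    omega
  obtain ⟨x₁, hx₁⟩ := exists_prime_orderOf_dvd_card' l hdvd
  obtain ⟨y₁, hy₁, hyx⟩ := Subgroup.mem_map.mp x₁.2
  have hord : orderOf (ρ y₁) = l := by rw [hyx, Subgroup.orderOf_coe, hx₁]
  obtain ⟨Y, hYd⟩ : ∃ Y, Y = (ρ y₁ : Matrix (Fin 2) (Fin 2) k) - 1 := ⟨_, rfl⟩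
  have hρY : (ρ y₁ : Matrix (Fin 2) (Fin 2) k) = 1 + Y := by rw [hYd]; abel
  have hY : Y * Y = 0 := by
    rw [hYd]
    refine sq_zero_of_pow (l := l) (j := 1) _ ?_
    rw [pow_one, ← Units.val_pow_eq_pow_val, ← hord, pow_orderOf_eq_one, Units.val_one]
  have hY0 : Y ≠ 0 := by
    intro h0
    have h1 : ρ y₁ = 1 := Units.ext (by rw [hρY, h0, add_zero, Units.val_one])
    rw [h1, orderOf_one] at hord
    exact hl.one_lt.ne hord
  refine scalar_of_comm ρ hirr hY hY0 _ fun g => ?_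
  -- the commutator
  obtain ⟨x, hx⟩ : ∃ x, x = g * y₁ * g⁻¹ := ⟨_, rfl⟩
  have hx' : x ∈ τ'.ker := by
    rw [hx]
    exact Subgroup.Normal.conj_mem inferInstance y₁ hy₁ g
  obtain ⟨s, hs⟩ := hZs (y * x * y⁻¹ * x⁻¹) ⟨by
    refine τ'.ker.mul_mem ?_ (τ'.ker.inv_mem hx')
    exact Subgroup.Normal.conj_mem inferInstance x hx' y, by
    have h1 : y * x * y⁻¹ * x⁻¹ = y * (x * y⁻¹ * x⁻¹) := by group
    rw [h1]
    refine τl.ker.mul_mem hyl ?_
    exact Subgroup.Normal.conj_mem inferInstance _ (τl.ker.inv_mem hyl) x⟩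
  have h1 : (ρ (y * x * y⁻¹) : Matrix (Fin 2) (Fin 2) k) = s • (ρ x : Matrix (Fin 2) (Fin 2) k) := by
    have h2 : ρ (y * x * y⁻¹) = ρ (y * x * y⁻¹ * x⁻¹) * ρ x := by
      rw [← map_mul, inv_mul_cancel_right]
    rw [h2, Units.val_mul, hs, Matrix.smul_mul, Matrix.one_mul]
  have htx : (ρ x : Matrix (Fin 2) (Fin 2) k).trace = 2 := by
    rw [hx, map_mul, map_mul, map_inv, Units.val_mul, Units.val_mul, Matrix.trace_mul_comm,
      ← Matrix.mul_assoc, ← Units.val_mul, inv_mul_cancel, Units.val_one, Matrix.one_mul, hρY,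
      trace_one_add hY]
  have hty : (ρ (y * x * y⁻¹) : Matrix (Fin 2) (Fin 2) k).trace = 2 := by
    rw [map_mul, map_mul, map_inv, Units.val_mul, Units.val_mul, Matrix.trace_mul_comm,
      ← Matrix.mul_assoc, ← Units.val_mul, inv_mul_cancel, Units.val_one, Matrix.one_mul, htx]
  have hs1 : s = 1 := by
    have h2 := congrArg Matrix.trace h1
    rw [hty, Matrix.trace_smul, htx, smul_eq_mul] at h2
    exact (mul_right_cancel₀ hl2 (by rw [one_mul]; exact h2)).symm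
  rw [hs1, one_smul] at h1
  have h2 : ρ (y * x * y⁻¹) = ρ x := Units.ext h1
  have h3 : ρ y * ρ x = ρ x * ρ y := by
    rw [map_mul, map_mul, map_inv, mul_inv_eq_iff_eq_mul] at h2
    exact h2
  have h4 : (ρ y : Matrix (Fin 2) (Fin 2) k) * ρ x = ρ x * ρ y := by
    rw [← Units.val_mul, h3, Units.val_mul]
  have h6 : (ρ x : Matrix (Fin 2) (Fin 2) k) = 1 + (ρ g : Matrix (Fin 2) (Fin 2) k) * Y *
      (((ρ g)⁻¹ : GL (Fin 2) k) : Matrix (Fin 2) (Fin 2) k) := by
    rw [hx, map_mul, map_mul, map_inv, Units.val_mul, Units.val_mul, hρY, Matrix.mul_add,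
      Matrix.add_mul, Matrix.mul_one, ← Units.val_mul, mul_inv_cancel, Units.val_one]
  rw [h6, Matrix.mul_add, Matrix.add_mul, Matrix.mul_one, Matrix.one_mul] at h4
  exact add_left_cancel h4

end main

end Pool.Agent.UTF
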