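import Pool.Agent.UTF.DetC
import Pool.Agent.Helper37.Af.Main
import Pool.Agent.Helper37.Fd.Almost
import Pool.Agent.Helper37.Mv.Rel
import Pool.Agent.Helper37.Mv.Poly

/-!
# MP_6cbef8_nt: a polynomial relation at the classes of small quotients decides, uniformly in the group

`E` is a finite extension of `ℚ_p`; the numbers of representations, their dimensions `n j` and a
bound `d` for degrees are given.  There is a number `K`, which depends on nothing else, such that
the following holds for EVERY profinite group `G`, open subgroup `U` and coset `g U`.  Let `D` be a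
set which meets every coset `g u W`, `W` an open normal subgroup of `U` of index at most `K` (in the
application `G` is the Galois group of the maximal extension of the base field unramified outside a
finite set `S` of places, and `D` consists of the Frobenius elements at the places whose norm is
bounded by a power of the norm of `S`, possibly with a prescribed class in a fixed extension:
effective Chebotarev theorem).  A polynomial relation of degree at most `d` between strongly
irreducible two-dimensional `V i`, none a twist of another one, and `T j`, which holds on `D`, and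
which is not trivial in the `V i` on a set of positive measure in `g U`, forces some `V i` to be
potentially contained in some `T j`.
-/

set_option autoImplicit false
open MeasureTheory Pool.Agent.Helper27.FM Pool.Agent.Helper37.Af Pool.Agent.Helper37.Fd
  Pool.Agent.Helper37.Mv Pool.Agent.Helper37.Fc

namespace Pool.Agent.UTF

theorem ucheck (p : ℕ) [hp : Fact p.Prime]
    {E : Type*} [NontriviallyNormedField E] [IsUltrametricDist E] [ProperSpace E]
    [NormedAlgebra ℚ_[p] E]
    {ι : Type*} [Finite ι] {J : Type*} [Finite J] (n : J → ℕ) (d : ℕ) :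
    ∃ K : ℕ, ∀ (G : Type) [Group G] [TopologicalSpace G] [IsTopologicalGroup G] [CompactSpace G]
      [TotallyDisconnectedSpace G] [MeasurableSpace G] [BorelSpace G] (μ : Measure G)
      [μ.IsHaarMeasure] (U : Subgroup G) (g : G) (D : Set G), IsOpen (U : Set G) →
      (∀ W : Subgroup U, W.Normal → IsOpen (W : Set U) → W.index ≤ K →
        ∀ u : U, ∃ w ∈ W, g * (u * w : U) ∈ D) →
      ∀ (V : ι → G →* GL (Fin 2) E) (T : ∀ j, G →* GL (Fin (n j)) E)
        (P : MvPolynomial (Vars ι J n) E),
        (∀ i, Continuous (V i)) → (∀ i, StronglyIrreducible (V i)) →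
        (∀ i k, i ≠ k → ¬ IsTwist (V i) (V k)) → (∀ j, Continuous (T j)) →
        (∀ i j, ¬ AdOccurs (V i) (T j) ∨
          (Semisimple (T j) ∧ IdempotentGenerated p (V i) (T j))) →
        P.totalDegree ≤ d →
        (∀ r ∈ D, MvPolynomial.eval (allEntries (fun i => (V i r : Matrix (Fin 2) (Fin 2) E))
          (fun j => T j r)) P = 0) →
        μ {x | g⁻¹ * x ∈ U ∧ NontrivialAt V T P x} ≠ 0 →
        ∃ i j, PotentiallyContained (V i) (T j) := by
  obtain ⟨A, -, hA⟩ := exists_reps E
  refine ⟨(A.card ^ (Module.finrank E
    (MvPolynomial.restrictTotalDegree (Vars ι J n) E d))).factorial,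
    fun G _ _ _ _ _ _ _ μ _ U g D hU hD V T P hV hirr htw hT h hP hr hne => ?_⟩
  obtain ⟨f, S, hS, hfr, hSf, hf⟩ := exists_polym hV hT d P hP
  have hf0 := det_coset A hA _ hU g D hD f S hS hfr hSf (fun r hrR => by rw [hf]; exact hr r hrR)
  by_contra hcon
  push Not at hcon
  have hocc : ∀ i j, ¬ AdOccurs (V i) (T j) := by
    intro i j hij
    rcases h i j with h1 | ⟨h1, h2⟩
    · exact h1 hij
    · exact hcon i j (contained_of_adOccurs p (hV i) (hirr i) (hT j) h1 h2 hij)
  refine hne (measure_mono_null ?_ (no_relation p μ hV hirr htw hT hocc P))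
  rintro x ⟨hxU, hx⟩
  refine ⟨?_, hx⟩
  rw [← hf]
  have h1 := hf0 ⟨g⁻¹ * x, hxU⟩
  rwa [mul_inv_cancel_left] at h1

end Pool.Agent.UTF
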